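import Mathlib

set_option autoImplicit false

namespace Pool.Agent.Helper113

open Cardinal Set

/-- `al n` is the cardinal aleph_n. -/
noncomputable def al (n : ℕ) : Cardinal.{0} := Cardinal.aleph (n : Ordinal.{0})

/-- `lam` is the cardinal aleph_omega. -/
noncomputable def lam : Cardinal.{0} := Cardinal.aleph Ordinal.omega0

theorem al_succ (n : ℕ) : al (n + 1) = Order.succ (al n) := by
  unfold al
  rw [Cardinal.succ_aleph]
  push_cast
  rfl

theorem aleph0_le_al (n : ℕ) : ℵ₀ ≤ al n := Cardinal.aleph0_le_aleph _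

theorem aleph0_le_lam : ℵ₀ ≤ lam := Cardinal.aleph0_le_aleph _

theorem al_mono {m n : ℕ} (h : m ≤ n) : al m ≤ al n := by
  unfold al
  rw [Cardinal.aleph_le_aleph]
  exact_mod_cast h

theorem al_lt_lam (n : ℕ) : al n < lam := by
  unfold al lam
  rw [Cardinal.aleph_lt_aleph]
  exact Ordinal.natCast_lt_omega0 n

theorem al_le_lam (n : ℕ) : al n ≤ lam := (al_lt_lam n).le

theorem al_lt_succ (n : ℕ) : al n < al (n + 1) := by
  rw [al_succ]; exact Order.lt_succ _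

theorem al_lt_iff_le {c : Cardinal.{0}} {n : ℕ} : al n < c ↔ al (n + 1) ≤ c := by
  rw [al_succ]; exact Order.succ_le_iff.symm

theorem le_al_iff_lt {c : Cardinal.{0}} {n : ℕ} : c ≤ al n ↔ c < al (n + 1) := by
  rw [al_succ]; exact Order.lt_succ_iff.symm

theorem lam_le {c : Cardinal.{0}} (h : ∀ n : ℕ, al n ≤ c) : lam ≤ c := by
  unfold lam
  rw [Cardinal.aleph_limit Ordinal.isSuccLimit_omega0]
  apply ciSup_le'
  rintro ⟨a, ha⟩
  obtain ⟨n, rfl⟩ := Ordinal.lt_omega0.1 ha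
  exact h n

/-- unions of few small sets are small -/
theorem small_iUnion {ι α : Type} {c : Cardinal.{0}} (hc : ℵ₀ ≤ c) (hι : #ι ≤ c)
    (f : ι → Set α) (hf : ∀ i, #(f i) ≤ c) : #(⋃ i, f i) ≤ c := by
  refine (Cardinal.mk_iUnion_le f).trans ?_
  calc #ι * (⨆ i, #(f i)) ≤ c * c := mul_le_mul' hι (ciSup_le' hf)
    _ = c := Cardinal.mul_eq_self hc

theorem small_biUnion {ι α : Type} {c : Cardinal.{0}} (hc : ℵ₀ ≤ c) (s : Set ι) (hs : #s ≤ c)
    (f : ι → Set α) (hf : ∀ i ∈ s, #(f i) ≤ c) : #(⋃ i ∈ s, f i) ≤ c := by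
  rw [biUnion_eq_iUnion]
  exact small_iUnion hc hs _ (fun i => hf i.1 i.2)

theorem small_iUnion_nat {α : Type} {c : Cardinal.{0}} (hc : ℵ₀ ≤ c)
    (f : ℕ → Set α) (hf : ∀ i, #(f i) ≤ c) : #(⋃ i, f i) ≤ c :=
  small_iUnion hc (by simpa using hc) f hf

theorem small_union {α : Type} {c : Cardinal.{0}} (hc : ℵ₀ ≤ c) {s t : Set α}
    (hs : #s ≤ c) (ht : #t ≤ c) : #(s ∪ t : Set α) ≤ c := by
  refine (Cardinal.mk_union_le s t).trans ?_
  calc #s + #t ≤ c + c := add_le_add hs ht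
    _ = c := Cardinal.add_eq_self hc

theorem small_mono {α : Type} {c : Cardinal.{0}} {s t : Set α} (h : s ⊆ t) (ht : #t ≤ c) :
    #s ≤ c := (Cardinal.mk_le_mk_of_subset h).trans ht

theorem small_subsingleton {α : Type} {c : Cardinal.{0}} (hc : ℵ₀ ≤ c) {s : Set α}
    (hs : s.Subsingleton) : #s ≤ c := by
  have : s.Finite := hs.finite
  exact (this.lt_aleph0).le.trans hc

theorem small_finite {α : Type} {c : Cardinal.{0}} (hc : ℵ₀ ≤ c) {s : Set α}
    (hs : s.Finite) : #s ≤ c := (hs.lt_aleph0).le.trans hc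

theorem not_small_diff {α : Type} {c : Cardinal.{0}} (hc : ℵ₀ ≤ c) {s t : Set α}
    (hs : ¬ #s ≤ c) (ht : #t ≤ c) : ¬ #(s \ t : Set α) ≤ c := by
  intro h
  apply hs
  refine small_mono (t := (s \ t) ∪ t) ?_ (small_union hc h ht)
  intro x hx
  by_cases hxt : x ∈ t
  · exact Or.inr hxt
  · exact Or.inl ⟨hx, hxt⟩

theorem exists_of_not_small {α : Type} {c : Cardinal.{0}} {s : Set α}
    (hs : ¬ #s ≤ c) : s.Nonempty := by
  by_contra h
  rw [Set.not_nonempty_iff_eq_empty] at h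
  apply hs
  rw [h]
  simp

/-- a set of size larger than `c` is not covered by few small sets. -/
theorem exists_not_mem_biUnion {ι α : Type} {c : Cardinal.{0}} (hc : ℵ₀ ≤ c) (s : Set ι)
    (hs : #s ≤ c) (f : ι → Set α) (E : Set α) (hE : ¬ #E ≤ c)
    (hf : ∀ i ∈ s, #(E ∩ f i : Set α) ≤ c) : ∃ x ∈ E, ∀ i ∈ s, x ∉ f i := by
  by_contra h
  push Not at h
  apply hE
  refine small_mono (t := ⋃ i ∈ s, E ∩ f i) ?_ (small_biUnion hc s hs _ hf)
  intro x hx
  obtain ⟨i, hi, hxi⟩ := h x hx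
  simp only [mem_iUnion]
  exact ⟨i, hi, hx, hxi⟩

end Pool.Agent.Helper113
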