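import Pool.Agent.Helper113.Basic

set_option autoImplicit false

namespace Pool.Agent.Helper113

open Cardinal Set

/-- Recursive choice along a well-founded relation. -/
theorem rec_choice {ι β : Type*} [Nonempty β] {r : ι → ι → Prop} (wf : WellFounded r)
    (P : ι → (ι → β) → β → Prop)
    (hloc : ∀ i f g b, (∀ j, r j i → f j = g j) → P i f b → P i g b)
    (hstep : ∀ i f, (∀ j, r j i → P j f (f j)) → ∃ b, P i f b) :
    ∃ f : ι → β, ∀ i, P i f (f i) := by
  classical
  let d : β := Classical.arbitrary β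
  let F : ι → β := wf.fix (fun i prev =>
    if h : ∃ b, P i (fun j => if hj : r j i then prev j hj else d) b then h.choose else d)
  have hF : ∀ i, F i =
      if h : ∃ b, P i (fun j => if r j i then F j else d) b then h.choose else d := by
    intro i
    have := wf.fix_eq (C := fun _ => β) (fun i prev =>
      if h : ∃ b, P i (fun j => if hj : r j i then prev j hj else d) b then h.choose else d) i
    simp only [dite_eq_ite] at this
    exact this
  refine ⟨F, ?_⟩
  intro i
  induction i using wf.induction with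
  | _ i ih =>
    have h1 : ∃ b, P i F b := hstep i F ih
    have h2 : ∃ b, P i (fun j => if r j i then F j else d) b := by
      obtain ⟨b, hb⟩ := h1
      exact ⟨b, hloc i F _ b (fun j hj => by simp [hj]) hb⟩
    rw [hF i, dif_pos h2]
    have h3 := h2.choose_spec
    exact hloc i _ F _ (fun j hj => by simp [hj]) h3

/-- Independent transversals. -/
theorem exists_indep_transversal {ι K : Type} [Nonempty K] {c : Cardinal.{0}} (hc : ℵ₀ ≤ c)
    (hι : #ι ≤ c) (T : ι → Set K) (hT : ∀ i, ¬ #(T i) ≤ c) (R : K → K → Prop)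
    (hR : ∀ i j, i ≠ j → ∀ x ∈ T j, #{b ∈ T i | R x b ∨ R b x} ≤ c) :
    ∃ x : ι → K, (∀ i, x i ∈ T i) ∧ ∀ i j, i ≠ j → ¬ R (x i) (x j) := by
  have wf : WellFounded (WellOrderingRel : ι → ι → Prop) := IsWellFounded.wf
  obtain ⟨x, hx⟩ := rec_choice (β := K) wf
    (fun i f b => b ∈ T i ∧ ∀ j, WellOrderingRel j i → f j ∈ T j → ¬ (R (f j) b ∨ R b (f j)))
    (by
      intro i f g b hfg h
      refine ⟨h.1, ?_⟩
      intro j hj hgj
      rw [← hfg j hj] at hgj ⊢
      exact h.2 j hj hgj)
    (by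
      intro i f _
      obtain ⟨b, hb, hb2⟩ := exists_not_mem_biUnion hc (univ : Set ι) (by simpa using hι)
        (fun j => {b | j ≠ i ∧ f j ∈ T j ∧ (R (f j) b ∨ R b (f j))}) (T i) (hT i)
        (by
          intro j _
          by_cases hj : j ≠ i ∧ f j ∈ T j
          · refine small_mono ?_ (hR i j (Ne.symm hj.1) (f j) hj.2)
            rintro b ⟨hb, hb2⟩
            exact ⟨hb, hb2.2.2⟩
          · refine small_subsingleton hc ?_
            rintro b ⟨_, hb2⟩
            exact absurd ⟨hb2.1, hb2.2.1⟩ hj)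
      refine ⟨b, hb, ?_⟩
      intro j hj hfj hR'
      have hji : j ≠ i := by
        rintro rfl
        exact (irrefl_of WellOrderingRel j) hj
      exact hb2 j (mem_univ _) ⟨hji, hfj, hR'⟩)
  refine ⟨x, fun i => (hx i).1, ?_⟩
  intro i j hij hRij
  rcases trichotomous_of (WellOrderingRel : ι → ι → Prop) i j with h | h | h
  · exact (hx j).2 i h (hx i).1 (Or.inl hRij)
  · exact hij h
  · exact (hx i).2 j h (hx j).1 (Or.inr hRij)

/-- A weak form of the Delta-system lemma. -/
theorem weak_delta {E K : Type} (n : ℕ) (hE : ¬ #E ≤ al n) (Z : E → Set K)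
    (hZ : ∀ b, #(Z b) < al n) :
    ∃ (T : Set E) (R : Set K), (¬ #T ≤ al n) ∧ #R ≤ al n ∧
      ∀ b ∈ T, ∀ b' ∈ T, b ≠ b' → Z b ∩ Z b' ⊆ R := by
  by_contra hcon
  push Not at hcon
  -- maximal families
  have hmax : ∀ R : Set K, ∃ T : Set E, T.Pairwise (fun b b' => Z b ∩ Z b' ⊆ R) ∧
      ∀ b, b ∉ T → ∃ b' ∈ T, ¬ (Z b ∩ Z b' ⊆ R) := by
    intro R
    obtain ⟨T, hT⟩ := zorn_subset {T : Set E | T.Pairwise (fun b b' => Z b ∩ Z b' ⊆ R)} (by
      intro c hc hchain
      refine ⟨⋃₀ c, ?_, fun s hs => subset_sUnion_of_mem hs⟩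
      exact (pairwise_sUnion hchain.directedOn).2 (fun s hs => hc hs))
    refine ⟨T, hT.prop, ?_⟩
    intro b hb
    by_contra h
    push Not at h
    have h2 : (insert b T).Pairwise (fun b b' => Z b ∩ Z b' ⊆ R) := by
      rw [pairwise_insert]
      refine ⟨hT.prop, ?_⟩
      intro b' hb' _
      refine ⟨h b' hb', ?_⟩
      rw [inter_comm]
      exact h b' hb'
    exact hb (hT.le_of_ge h2 (subset_insert b T) (mem_insert b T))
  choose M hM1 hM2 using hmax
  have hMsmall : ∀ R : Set K, #R ≤ al n → #(M R) ≤ al n := by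
    intro R hR
    by_contra h
    obtain ⟨b, hb, b', hb', hne, hsub⟩ := hcon (M R) R (not_le.1 h) hR
    exact hsub (hM1 R hb hb' hne)
  let F : Set K → Set K := fun R => R ∪ ⋃ b ∈ M R, Z b
  have hF : ∀ R : Set K, #R ≤ al n → #(F R) ≤ al n := by
    intro R hR
    exact small_union (aleph0_le_al n) hR
      (small_biUnion (aleph0_le_al n) _ (hMsmall R hR) _ (fun b _ => (hZ b).le))
  -- the recursion
  let W := (al n).ord.ToType
  have hWcard : #W = al n := Cardinal.mk_ord_toType _
  obtain ⟨R, hR⟩ := rec_choice (ι := W) (β := Set K) (r := (· < ·)) wellFounded_lt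
    (fun ξ f b => b = ⋃ η ∈ Iio ξ, F (f η))
    (by
      intro i f g b hfg h
      rw [h]
      refine iUnion₂_congr ?_
      intro j hj
      rw [hfg j hj])
    (by
      intro i f _
      exact ⟨_, rfl⟩)
  have hRsmall : ∀ ξ, #(R ξ) ≤ al n := by
    intro ξ
    induction ξ using WellFoundedLT.induction with
    | _ ξ ih =>
      rw [hR ξ]
      refine small_biUnion (aleph0_le_al n) _ ?_ _ ?_
      · exact (Cardinal.mk_set_le _).trans hWcard.le
      · intro η hη
        exact hF _ (ih η hη)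
  -- pick a point outside all the maximal families
  have hall : #(⋃ ξ, M (R ξ) : Set E) ≤ al n :=
    small_iUnion (aleph0_le_al n) hWcard.le _ (fun ξ => hMsmall _ (hRsmall ξ))
  have hEuniv : ¬ #(univ : Set E) ≤ al n := by simpa using hE
  obtain ⟨b, _, hb⟩ := exists_of_not_small (not_small_diff (aleph0_le_al n) hEuniv hall)
  have hb' : ∀ ξ, b ∉ M (R ξ) := by
    intro ξ h
    exact hb (mem_iUnion.2 ⟨ξ, h⟩)
  have hz : ∀ ξ : W, ∃ z, z ∈ Z b ∧ z ∉ R ξ ∧ z ∈ F (R ξ) := by
    intro ξ
    obtain ⟨b', hb'M, hnot⟩ := hM2 (R ξ) b (hb' ξ)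
    rw [not_subset] at hnot
    obtain ⟨z, hz, hzR⟩ := hnot
    refine ⟨z, hz.1, hzR, Or.inr ?_⟩
    simp only [mem_iUnion]
    exact ⟨b', hb'M, hz.2⟩
  choose z hz1 hz2 hz3 using hz
  have hinj : Function.Injective z := by
    have key : ∀ ξ η : W, ξ < η → z ξ ≠ z η := by
      intro ξ η hlt heq
      apply hz2 η
      rw [hR η]
      simp only [mem_iUnion]
      exact ⟨ξ, hlt, heq ▸ hz3 ξ⟩
    intro ξ η heq
    rcases lt_trichotomy ξ η with h | h | h
    · exact absurd heq (key ξ η h)
    · exact h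
    · exact absurd heq.symm (key η ξ h)
  have : #W ≤ #(Z b) := by
    refine Cardinal.mk_le_of_injective (f := fun ξ => (⟨z ξ, hz1 ξ⟩ : Z b)) ?_
    intro ξ η h
    exact hinj (Subtype.ext_iff.1 h)
  rw [hWcard] at this
  exact absurd (hZ b) (not_lt.2 this)

end Pool.Agent.Helper113
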