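import Pool.Agent.Helper113.GBasic

set_option autoImplicit false

universe u

namespace Pool.Agent.Helper113.F

open Cardinal Set Pool.Agent.Helper113.G

theorem exists_range {Q T : Type u} [Nonempty Q] (s : Set Q) (h : #s ≤ #T) :
    ∃ e : T → Q, s ⊆ range e := by
  classical
  obtain ⟨f⟩ := h
  refine ⟨fun t => if h : ∃ y : s, f y = t then h.choose.1 else Classical.arbitrary Q, ?_⟩
  intro y hy
  refine ⟨f ⟨y, hy⟩, ?_⟩
  have h : ∃ z : s, f z = f ⟨y, hy⟩ := ⟨_, rfl⟩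
  simp only [dif_pos h]
  have h2 := f.injective h.choose_spec
  exact congrArg Subtype.val h2

/-- Closure under operations with few arguments and few values. -/
theorem exists_closed {Q : Type u} {κ τ : Cardinal.{u}} (hτ : τ ^ κ ≤ τ)
    (hτinf : ℵ₀ ≤ τ) (S : Set Q → Set Q) (hS : ∀ Y : Set Q, #Y ≤ κ → #(S Y) ≤ τ) :
    ∃ X : Set Q, #X ≤ τ ∧ ∀ Y ⊆ X, #Y ≤ κ → S Y ⊆ X := by
  classical
  rcases isEmpty_or_nonempty Q with hQ | hQ
  · exact ⟨∅, by simp, fun Y _ _ y _ => isEmptyElim y⟩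
  have he : ∀ Y : Set Q, ∃ e : τ.out → Q, #Y ≤ κ → S Y ⊆ range e := by
    intro Y
    by_cases hY : #Y ≤ κ
    · obtain ⟨e, he⟩ := exists_range (T := τ.out) (S Y) (by rw [mk_out]; exact hS Y hY)
      exact ⟨e, fun _ => he⟩
    · exact ⟨fun _ => Classical.arbitrary Q, fun h => absurd h hY⟩
  choose e he using he
  let β : τ.out ⊕ τ.out → Type u := Sum.elim (fun _ => PEmpty) (fun _ => κ.out)
  let step : (Σ a : τ.out ⊕ τ.out, β a → Q) → Q := fun p =>
    match p with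
    | ⟨Sum.inl t, _⟩ => e ∅ t
    | ⟨Sum.inr t, f⟩ => e (range f) t
  let ev : WType β → Q := WType.elim Q step
  refine ⟨range ev, ?_, ?_⟩
  · refine Cardinal.mk_range_le.trans ?_
    apply WType.cardinalMk_le_of_le
    have h1 : ∀ a : τ.out ⊕ τ.out, τ ^ #(β a) ≤ τ := by
      rintro (t | t)
      · change τ ^ #(PEmpty.{u+1}) ≤ τ
        simp only [Cardinal.mk_pempty, Cardinal.power_zero]
        exact (one_lt_aleph0.le).trans hτinf
      · change τ ^ #(κ.out) ≤ τ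
        rw [mk_out]
        exact hτ
    calc Cardinal.sum (fun a => τ ^ #(β a)) ≤ Cardinal.sum (fun _ : τ.out ⊕ τ.out => τ) :=
          Cardinal.sum_le_sum _ _ h1
      _ = (τ + τ) * τ := by simp
      _ = τ := by rw [Cardinal.add_eq_self hτinf, Cardinal.mul_eq_self hτinf]
  · intro Y hY hcard
    rcases Y.eq_empty_or_nonempty with rfl | hne
    · intro y hy
      obtain ⟨t, ht⟩ := he ∅ hcard hy
      refine ⟨WType.mk (Sum.inl t) (fun x => PEmpty.elim x), ?_⟩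
      exact ht
    · obtain ⟨f, hf⟩ : ∃ f : κ.out → Q, range f = Y := by
        have : Nonempty Y := hne.to_subtype
        obtain ⟨g⟩ : Nonempty (Y ↪ κ.out) := by
          rw [← Cardinal.le_def, mk_out]
          exact hcard
        refine ⟨fun k => (Function.invFun g k : Y).1, ?_⟩
        ext y
        constructor
        · rintro ⟨k, rfl⟩
          exact (Function.invFun g k : Y).2
        · intro hy
          refine ⟨g ⟨y, hy⟩, ?_⟩
          simp only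
          rw [Function.leftInverse_invFun g.injective]
      have hw : ∀ k, ∃ w : WType β, ev w = f k := by
        intro k
        exact hY (hf ▸ mem_range_self k)
      choose w hw using hw
      intro y hy
      obtain ⟨t, ht⟩ := he Y hcard hy
      refine ⟨WType.mk (Sum.inr t) w, ?_⟩
      change e (range (fun k => ev (w k))) t = y
      have : (fun k => ev (w k)) = f := funext hw
      rw [this, hf]
      exact ht

/-- Greedy choice of a maximal clique, simultaneously maximal inside all members of an increasing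
family of sets. -/
theorem greedy {Q : Type u} {I : Type u} [LinearOrder I] [WellFoundedLT I]
    (X : I → Set Q) (hX : ∀ i j, i ≤ j → X i ⊆ X j) (R : Q → Q → Prop)
    (hR : ∀ x y, R x y → R y x) (p : Q → Prop) :
    ∃ A : Set Q, (∀ a ∈ A, p a) ∧ (∀ a ∈ A, ∀ b ∈ A, a ≠ b → R a b) ∧
      ∀ i, ∀ s ∈ X i, p s → (∀ y ∈ A ∩ X i, R y s) → s ∈ A := by
  classical
  let rank : Q → WithTop I := fun y =>
    if h : ∃ i, y ∈ X i then (((wellFounded_lt : WellFounded ((· < ·) : I → I → Prop)).min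
      {i | y ∈ X i} h : I) : WithTop I) else ⊤
  have hrank : ∀ i s, s ∈ X i → rank s ≤ (i : WithTop I) := by
    intro i s hs
    have h : ∃ i, s ∈ X i := ⟨i, hs⟩
    simp only [rank, dif_pos h]
    refine WithTop.coe_le_coe.2 (not_lt.1 ?_)
    exact WellFounded.not_lt_min (wellFounded_lt : WellFounded ((· < ·) : I → I → Prop))
      {i | s ∈ X i} (x := i) hs
  have hrank2 : ∀ (i : I) (y : Q), rank y ≤ (i : WithTop I) → y ∈ X i := by
    intro i y hy
    by_cases h : ∃ i, y ∈ X i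
    · simp only [rank, dif_pos h] at hy
      have h1 := WellFounded.min_mem (wellFounded_lt : WellFounded ((· < ·) : I → I → Prop))
        {i | y ∈ X i} h
      exact hX _ _ (WithTop.coe_le_coe.1 hy) h1
    · simp only [rank, dif_neg h] at hy
      exact absurd hy (by simp)
  let r : Q → Q → Prop := InvImage (Prod.Lex (· < ·) WellOrderingRel) (fun y => (rank y, y))
  have wf : WellFounded r := InvImage.wf _ (WellFounded.prod_lex wellFounded_lt IsWellFounded.wf)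
  let G : (y : Q) → ((y' : Q) → r y' y → Prop) → Prop := fun y prev =>
    p y ∧ ∀ y' (h : r y' y), prev y' h → R y' y
  let A : Set Q := {y | wf.fix G y}
  have hA : ∀ y, y ∈ A ↔ (p y ∧ ∀ y', r y' y → y' ∈ A → R y' y) := by
    intro y
    change wf.fix G y ↔ _
    rw [wf.fix_eq]
    rfl
  refine ⟨A, fun a ha => ((hA a).1 ha).1, ?_, ?_⟩
  · intro a ha b hb hab
    have htot : r a b ∨ r b a := by
      rcases lt_trichotomy (rank a) (rank b) with h | h | h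
      · exact Or.inl (Prod.Lex.left _ _ h)
      · rcases trichotomous_of (WellOrderingRel : Q → Q → Prop) a b with h2 | h2 | h2
        · left
          change Prod.Lex _ _ (rank a, a) (rank b, b)
          rw [h]
          exact Prod.Lex.right _ h2
        · exact absurd h2 hab
        · right
          change Prod.Lex _ _ (rank b, b) (rank a, a)
          rw [h]
          exact Prod.Lex.right _ h2
      · exact Or.inr (Prod.Lex.left _ _ h)
    rcases htot with h | h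
    · exact ((hA b).1 hb).2 a h ha
    · exact hR _ _ (((hA a).1 ha).2 b h hb)
  · intro i s hs hps hall
    rw [hA]
    refine ⟨hps, ?_⟩
    intro y hy hyA
    have hle : rank y ≤ rank s := by
      have h1 : Prod.Lex (· < ·) WellOrderingRel (rank y, y) (rank s, s) := hy
      rw [Prod.lex_def] at h1
      rcases h1 with h1 | h1
      · exact h1.le
      · exact h1.1.le
    exact hall y ⟨hyA, hrank2 i y (hle.trans (hrank i s hs))⟩

section
variable {Q : Type u} [Preorder Q]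

/-- `D` is `τ`-directed: subsets of size at most `τ` have upper bounds in `D` -/
def Dir (τ : Cardinal.{u}) (D : Set Q) : Prop :=
  ∀ S : Set Q, S ⊆ D → #S ≤ τ → ∃ b ∈ D, ∀ s ∈ S, s ≤ b

/-- incomparability -/
def Inc (x y : Q) : Prop := ¬ x ≤ y ∧ ¬ y ≤ x

/-- the elements incomparable with all elements of `Y` -/
def IncSet (Y : Set Q) : Set Q := {w | ∀ y ∈ Y, Inc w y}

theorem Dir.mono {τ τ' : Cardinal.{u}} {D : Set Q} (h : Dir τ D) (hle : τ' ≤ τ) : Dir τ' D :=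
  fun S hS hc => h S hS (hc.trans hle)

theorem Dir.directedOn {τ : Cardinal.{u}} (hτ : ℵ₀ ≤ τ) {D : Set Q} (h : Dir τ D) :
    DirectedOn (· ≤ ·) D := by
  intro x hx y hy
  obtain ⟨b, hb, hb2⟩ := h {x, y} (by
    rintro z (rfl | rfl)
    · exact hx
    · exact hy) (small_finite hτ (by simp))
  exact ⟨b, hb, hb2 x (by simp), hb2 y (by simp)⟩

/-- Lemma U -/
theorem lemU {I : Type u} [LinearOrder I] [WellFoundedLT I] (κ : I → Cardinal.{u})
    (hinf : ∀ i, ℵ₀ ≤ κ i) (hmono : ∀ i j, i ≤ j → κ i ≤ κ j) (hseg : ∀ i, #(Iic i) ≤ κ i) :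
    ∃ 𝒟 : I → Set (Set Q), (∀ i, #(𝒟 i) ≤ 2 ^ κ i) ∧ (∀ i, ∀ D ∈ 𝒟 i, Dir (2 ^ κ i) D) ∧
      ∀ x : Q, ∃ A : Set Q, IsAntichain (· ≤ ·) A ∧ ∀ i, (∀ D ∈ 𝒟 i, x ∉ D) → κ i < #A := by
  classical
  have hτinf : ∀ i, ℵ₀ ≤ (2 : Cardinal.{u}) ^ κ i := fun i =>
    (hinf i).trans (Cardinal.cantor _).le
  have hτpow : ∀ i, ((2 : Cardinal.{u}) ^ κ i) ^ κ i = 2 ^ κ i := by
    intro i
    rw [← Cardinal.power_mul, Cardinal.mul_eq_self (hinf i)]
  have hτmono : ∀ i j, i ≤ j → (2 : Cardinal.{u}) ^ κ i ≤ 2 ^ κ j := fun i j hij =>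
    Cardinal.power_le_power_left two_ne_zero (hmono i j hij)
  have hch : ∀ (i : I) (Y : Set Q), ∃ S : Set Q, S ⊆ IncSet Y ∧ #S ≤ 2 ^ κ i ∧
      (¬ Dir (2 ^ κ i) (IncSet Y) → ∀ b ∈ IncSet Y, ∃ s ∈ S, ¬ s ≤ b) := by
    intro i Y
    by_cases h : Dir (2 ^ κ i) (IncSet Y)
    · exact ⟨∅, empty_subset _, by simp, fun h' => absurd h h'⟩
    · have h' := h
      unfold Dir at h'
      push Not at h'
      obtain ⟨S, hS1, hS2, hS3⟩ := h'
      exact ⟨S, hS1, hS2, fun _ => hS3⟩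
  choose S hS1 hS2 hS3 using hch
  -- closed sets
  let C : I → Set (Set Q) := fun i => {X | ∀ j ≤ i, ∀ Y ⊆ X, #Y ≤ κ j → S j Y ⊆ X}
  let X : I → Set Q := fun i => ⋂₀ C i
  have hXcard : ∀ i, #(X i) ≤ 2 ^ κ i := by
    intro i
    obtain ⟨X0, hX0, hX1⟩ := exists_closed (κ := κ i) (τ := 2 ^ κ i) (hτpow i).le (hτinf i)
      (fun Y : Set Q => ⋃ j ∈ Iic i, S j Y) (by
        intro Y _
        refine small_biUnion (hτinf i) (Iic i) ((hseg i).trans (Cardinal.cantor _).le) _ ?_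
        intro j hj
        exact (hS2 j Y).trans (hτmono j i hj))
    refine small_mono (t := X0) (sInter_subset_of_mem ?_) hX0
    intro j hj Y hY hc
    refine subset_trans ?_ (hX1 Y hY (hc.trans (hmono j i hj)))
    intro s hs
    simp only [mem_iUnion]
    exact ⟨j, hj, hs⟩
  have hXclosed : ∀ i, ∀ j ≤ i, ∀ Y ⊆ X i, #Y ≤ κ j → S j Y ⊆ X i := by
    intro i j hj Y hY hc
    refine subset_sInter ?_
    intro X' hX'
    exact hX' j hj Y (hY.trans (sInter_subset_of_mem hX')) hc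
  have hXmono : ∀ i j, i ≤ j → X i ⊆ X j := by
    intro i j hij
    refine sInter_subset_sInter ?_
    intro X' hX' j' hj' Y hY hc
    exact hX' j' (hj'.trans hij) Y hY hc
  refine ⟨fun i => {D | Dir (2 ^ κ i) D ∧ ((∃ Y : Set Q, Y ⊆ X i ∧ #Y ≤ κ i ∧ D = IncSet Y) ∨
    ∃ y ∈ X i, D = Iic y)}, ?_, fun i D hD => hD.1, ?_⟩
  · intro i
    refine small_mono (t := (range fun Y : {t : Set Q // t ⊆ X i ∧ #t ≤ κ i} => IncSet Y.1) ∪
      (Iic '' X i)) ?_ (small_union (hτinf i) ?_ ?_)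
    · rintro D ⟨_, (⟨Y, hY1, hY2, rfl⟩ | ⟨y, hy, rfl⟩)⟩
      · exact Or.inl ⟨⟨Y, hY1, hY2⟩, rfl⟩
      · exact Or.inr ⟨y, hy, rfl⟩
    · refine Cardinal.mk_range_le.trans ?_
      refine (Cardinal.mk_bounded_subset_le (X i) (κ i)).trans ?_
      calc max (#(X i)) ℵ₀ ^ κ i ≤ (2 ^ κ i) ^ κ i :=
            Cardinal.power_le_power_right (max_le (hXcard i) (hτinf i))
        _ = 2 ^ κ i := hτpow i
    · exact Cardinal.mk_image_le.trans (hXcard i)
  · intro x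
    obtain ⟨A, hA1, hA2, hA3⟩ := greedy X hXmono (Inc : Q → Q → Prop)
      (fun a b h => ⟨h.2, h.1⟩) (fun y => Inc y x)
    refine ⟨A, fun a ha b hb hab => (hA2 a ha b hb hab).1, ?_⟩
    intro i hi
    by_contra hcon
    have hcard : #(A ∩ X i : Set Q) ≤ κ i := small_mono inter_subset_left (not_lt.1 hcon)
    have hxin : x ∈ IncSet (A ∩ X i) := by
      intro y hy
      exact ⟨(hA1 y hy.1).2, (hA1 y hy.1).1⟩
    have hnd : ¬ Dir (2 ^ κ i) (IncSet (A ∩ X i)) := by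
      intro hd
      exact hi _ ⟨hd, Or.inl ⟨A ∩ X i, inter_subset_right, hcard, rfl⟩⟩ hxin
    obtain ⟨s, hs, hsx⟩ := hS3 i (A ∩ X i) hnd x hxin
    have hsX : s ∈ X i := hXclosed i i le_rfl _ inter_subset_right hcard hs
    have hxs : ¬ x ≤ s := by
      intro hle
      refine hi (Iic s) ⟨?_, Or.inr ⟨s, hsX, rfl⟩⟩ hle
      intro S' hS' _
      exact ⟨s, le_rfl, fun z hz => hS' hz⟩
    have hsinc : s ∈ IncSet (A ∩ X i) := hS1 i _ hs
    have hsA : s ∈ A := hA3 i s hsX ⟨hsx, hxs⟩ (fun y hy => ⟨(hsinc y hy).2, (hsinc y hy).1⟩)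
    exact (hsinc s ⟨hsA, hsX⟩).1 le_rfl

/-- `C` is covered by at most `ν` directed sets -/
def CovBy (C : Set Q) (ν : Cardinal.{u}) : Prop :=
  ∃ 𝓘 : Set (Set Q), #𝓘 ≤ ν ∧ (∀ I ∈ 𝓘, DirectedOn (· ≤ ·) I) ∧ C ⊆ ⋃₀ 𝓘

theorem CovBy.mono {C C' : Set Q} {ν ν' : Cardinal.{u}} (h : CovBy C ν) (hC : C' ⊆ C)
    (hν : ν ≤ ν') : CovBy C' ν' := by
  obtain ⟨𝓘, h1, h2, h3⟩ := h
  exact ⟨𝓘, h1.trans hν, h2, hC.trans h3⟩

theorem CovBy.iUnion {ι : Type u} {C : ι → Set Q} {ν : Cardinal.{u}} (hν : ℵ₀ ≤ ν)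
    (hι : #ι ≤ ν) (h : ∀ i, CovBy (C i) ν) : CovBy (⋃ i, C i) ν := by
  choose 𝓘 h1 h2 h3 using h
  refine ⟨⋃ i, 𝓘 i, small_iUnion hν hι _ h1, ?_, ?_⟩
  · intro I hI
    obtain ⟨i, hi⟩ := mem_iUnion.1 hI
    exact h2 i I hi
  · intro x hx
    obtain ⟨i, hi⟩ := mem_iUnion.1 hx
    obtain ⟨I, hI, hxI⟩ := h3 i hi
    exact ⟨I, mem_iUnion.2 ⟨i, hI⟩, hxI⟩

theorem CovBy.union {C C' : Set Q} {ν : Cardinal.{u}} (hν : ℵ₀ ≤ ν)
    (h : CovBy C ν) (h' : CovBy C' ν) : CovBy (C ∪ C') ν := by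
  obtain ⟨𝓘, h1, h2, h3⟩ := h
  obtain ⟨𝓙, g1, g2, g3⟩ := h'
  refine ⟨𝓘 ∪ 𝓙, small_union hν h1 g1, ?_, ?_⟩
  · rintro I (hI | hI)
    · exact h2 I hI
    · exact g2 I hI
  · rintro x (hx | hx)
    · obtain ⟨I, hI, hxI⟩ := h3 hx
      exact ⟨I, Or.inl hI, hxI⟩
    · obtain ⟨I, hI, hxI⟩ := g3 hx
      exact ⟨I, Or.inr hI, hxI⟩

theorem covBy_Iic (a : Q) {ν : Cardinal.{u}} (hν : 1 ≤ ν) : CovBy (Iic a) ν := by
  refine ⟨{Iic a}, by simpa using hν, ?_, by simp⟩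
  rintro I rfl
  intro x hx y hy
  exact ⟨a, le_rfl, hx, hy⟩

/-- The argument of Milner and Prikry. -/
theorem milner_prikry {κ : Cardinal.{u}} (hκ : ℵ₀ ≤ κ) (C : Set Q) :
    CovBy C (2 ^ κ) ∨ ∃ A : Set Q, A ⊆ C ∧ IsAntichain (· ≤ ·) A ∧ κ < #A := by
  obtain ⟨𝒟, h1, h2, h3⟩ := lemU (Q := C) (I := PUnit.{u+1}) (fun _ => κ) (fun _ => hκ)
    (fun _ _ _ => le_rfl) (fun i => by
      refine (Cardinal.mk_set_le _).trans ?_
      simp only [Cardinal.mk_fintype, Fintype.card_punit, Nat.cast_one]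
      exact (one_lt_aleph0.le).trans hκ)
  by_cases h : ∀ x : C, ∃ D ∈ 𝒟 PUnit.unit, x ∈ D
  · left
    refine ⟨(fun D : Set C => (Subtype.val '' D : Set Q)) '' 𝒟 PUnit.unit,
      Cardinal.mk_image_le.trans (h1 _), ?_, ?_⟩
    · rintro _ ⟨D, hD, rfl⟩
      have hdir := (h2 _ D hD).directedOn (hκ.trans (Cardinal.cantor _).le)
      rintro _ ⟨x, hx, rfl⟩ _ ⟨y, hy, rfl⟩
      obtain ⟨z, hz, hxz, hyz⟩ := hdir x hx y hy
      exact ⟨z.1, ⟨z, hz, rfl⟩, hxz, hyz⟩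
    · intro x hx
      obtain ⟨D, hD, hxD⟩ := h ⟨x, hx⟩
      exact ⟨_, ⟨D, hD, rfl⟩, ⟨⟨x, hx⟩, hxD, rfl⟩⟩
  · right
    push Not at h
    obtain ⟨x, hx⟩ := h
    obtain ⟨A, hA1, hA2⟩ := h3 x
    refine ⟨Subtype.val '' A, ?_, ?_, ?_⟩
    · rintro _ ⟨a, _, rfl⟩
      exact a.2
    · rintro _ ⟨a, ha, rfl⟩ _ ⟨b, hb, rfl⟩ hab hle
      exact hA1 ha hb (fun h => hab (congrArg _ h)) hle
    · rw [Cardinal.mk_image_eq Subtype.val_injective]
      exact hA2 PUnit.unit (fun D hD => hx D hD)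

end

end Pool.Agent.Helper113.F
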