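import Pool.Agent.Helper113.FMain

set_option autoImplicit false

universe u

namespace Pool.Agent.Helper113.F

open Cardinal Set

/-- the discrete order on a type -/
def Disc (α : Type u) : Type u := α

instance (α : Type u) : PartialOrder (Disc α) where
  le := fun a b => a = b
  le_refl := fun _ => rfl
  le_trans := fun _ _ _ h1 h2 => h1.trans h2
  le_antisymm := fun _ _ h _ => h

theorem disc_lower {lam : Cardinal.{u}} (S : Set (Order.Ideal (Disc lam.out)))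
    (hcov : ∀ x : Disc lam.out, ∃ I ∈ S, x ∈ I) : lam ≤ #S := by
  choose f hf1 hf2 using hcov
  have hinj : Function.Injective (fun x => (⟨f x, hf1 x⟩ : S)) := by
    intro x y hxy
    have h1 : f x = f y := congrArg Subtype.val hxy
    have hx := hf2 x
    have hy := hf2 y
    rw [← h1] at hy
    obtain ⟨z, _, hxz, hyz⟩ := (f x).directed x hx y hy
    have e1 : x = z := hxz
    have e2 : y = z := hyz
    rw [e1, e2]
  calc lam = #(lam.out) := (Cardinal.mk_out lam).symm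
    _ = #(Disc lam.out) := rfl
    _ ≤ #S := Cardinal.mk_le_of_injective hinj

theorem ideals_of_covBy {P : Type u} [PartialOrder P] {ν : Cardinal.{u}}
    (h : CovBy (univ : Set P) ν) :
    ∃ S : Set (Order.Ideal P), #S ≤ ν ∧ ∀ x : P, ∃ I ∈ S, x ∈ I := by
  classical
  obtain ⟨JJ, h1, h2, h3⟩ := h
  have hf : ∀ J : {J // J ∈ JJ ∧ J.Nonempty}, ∃ I : Order.Ideal P, ∀ x, x ∈ I ↔ x ∈ dn J.1 := by
    rintro ⟨J, hJ, hne⟩
    refine ⟨⟨⟨dn J, ?_⟩, ?_, ?_⟩, fun x => Iff.rfl⟩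
    · rintro a b hba ⟨d, hd, had⟩
      exact ⟨d, hd, hba.trans had⟩
    · obtain ⟨a, ha⟩ := hne
      exact ⟨a, a, ha, le_rfl⟩
    · rintro a ⟨d, hd, had⟩ b ⟨d', hd', hbd'⟩
      obtain ⟨e, he, hde, hd'e⟩ := h2 J hJ d hd d' hd'
      exact ⟨e, ⟨e, he, le_rfl⟩, had.trans hde, hbd'.trans hd'e⟩
  choose f hf using hf
  refine ⟨range f, ?_, ?_⟩
  · refine Cardinal.mk_range_le.trans (le_trans ?_ h1)
    exact Cardinal.mk_le_mk_of_subset (s := {J | J ∈ JJ ∧ J.Nonempty}) (fun J hJ => hJ.1)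
  · intro x
    obtain ⟨J, hJ, hxJ⟩ := h3 (mem_univ x)
    exact ⟨f ⟨J, hJ, ⟨x, hxJ⟩⟩, ⟨_, rfl⟩, (hf _ x).2 ⟨x, hxJ, le_rfl⟩⟩

theorem lt_of_noAntichain {P : Type u} [PartialOrder P] {μ : Cardinal.{u}}
    (h : ¬ ∃ A : Set P, IsAntichain (· ≤ ·) A ∧ #A = μ) (A : Set P)
    (hA : IsAntichain (· ≤ ·) A) : #A < μ := by
  by_contra hcon
  obtain ⟨B, hB, hBc⟩ := Cardinal.le_mk_iff_exists_subset.1 (not_lt.1 hcon)
  exact h ⟨B, hA.subset hB, hBc⟩

theorem final {P : Type u} [PartialOrder P] {μ : Cardinal.{u}} (hμ : μ.IsSingular)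
    (hsl : μ.IsStrongLimit) (h : ¬ ∃ A : Set P, IsAntichain (· ≤ ·) A ∧ #A = μ) :
    ∃ S : Set (Order.Ideal P), #S < μ ∧ ∀ x : P, ∃ I ∈ S, x ∈ I := by
  obtain ⟨ν, hν, hcov⟩ := core hμ (fun c hc => hsl.two_power_lt hc) (lt_of_noAntichain h)
  obtain ⟨S, hS, hS2⟩ := ideals_of_covBy hcov
  exact ⟨S, hS.trans_lt hν, hS2⟩

theorem strongLimit_of_gch
    (gch : ∀ κ : Cardinal.{u}, ℵ₀ ≤ κ → (2 : Cardinal.{u}) ^ κ = Order.succ κ)
    {μ : Cardinal.{u}} (hμ : μ.IsSingular) : μ.IsStrongLimit := by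
  refine ⟨hμ.pos.ne', ?_⟩
  intro c hc
  rcases lt_or_ge c ℵ₀ with h | h
  · obtain ⟨n, rfl⟩ := Cardinal.lt_aleph0.1 h
    refine lt_of_lt_of_le ?_ hμ.aleph0_le
    exact Cardinal.power_lt_aleph0 (Cardinal.natCast_lt_aleph0 (n := 2)) Cardinal.natCast_lt_aleph0
  · rw [gch c h]
    exact hμ.isSuccLimit.succ_lt hc

end Pool.Agent.Helper113.F
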