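import Pool.Agent.Helper113.FSmall

set_option autoImplicit false

universe u

namespace Pool.Agent.Helper113.F

open Cardinal Set Pool.Agent.Helper113.G

theorem bounded_of_small {c : Cardinal.{u}} (hc : c.ord.cof = c) (s : Set c.ord.ToType)
    (hs : #s < c) : ∃ j, ∀ x ∈ s, x ≤ j := by
  by_contra h
  push Not at h
  have h1 : IsCofinal s := by
    intro j
    obtain ⟨x, hx, hjx⟩ := h j
    exact ⟨x, hx, hjx.le⟩
  have h2 := Order.cof_le h1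
  rw [Ordinal.cof_toType, hc] at h2
  exact absurd hs (not_lt.2 h2)

theorem exists_sparse {c : Cardinal.{u}} (hinf : ℵ₀ ≤ c) (hc : c.ord.cof = c)
    (f : c.ord.ToType → c.ord.ToType) :
    ∃ C : Set c.ord.ToType, (∀ i ∈ C, ∀ j ∈ C, i < j → f i ≤ j) ∧ ∀ b, ∃ j ∈ C, b ≤ j := by
  obtain ⟨C, -, h1, h2⟩ := greedy (fun i : c.ord.ToType => Iic i)
    (fun i j hij => Iic_subset_Iic.2 hij)
    (fun i j => (i < j → f i ≤ j) ∧ (j < i → f j ≤ i)) (fun i j h => ⟨h.2, h.1⟩)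
    (fun _ => True)
  refine ⟨C, fun i hi j hj hij => (h1 i hi j hj hij.ne).1 hij, ?_⟩
  by_contra hcon
  push Not at hcon
  obtain ⟨b, hb⟩ := hcon
  have hcard : #(insert b (f '' C) : Set c.ord.ToType) < c := by
    have h3 : #(f '' C : Set c.ord.ToType) < c := by
      refine lt_of_le_of_lt Cardinal.mk_image_le ?_
      refine lt_of_le_of_lt (small_mono (t := Iio b) (fun x hx => hb x hx) le_rfl) ?_
      have := Cardinal.mk_Iio_lt b (by rw [Cardinal.mk_ord_toType]; simp)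
      rwa [Cardinal.mk_ord_toType] at this
    refine lt_of_le_of_lt (Cardinal.mk_insert_le) ?_
    exact Cardinal.add_lt_of_lt hinf h3 (one_lt_aleph0.trans_le hinf)
  obtain ⟨j, hj⟩ := bounded_of_small hc _ hcard
  have hjC : j ∈ C := by
    refine h2 j j (mem_Iic.2 le_rfl) trivial ?_
    rintro y ⟨hyC, _⟩
    refine ⟨fun _ => hj _ (Or.inr ⟨y, hyC, rfl⟩), fun hjy => ?_⟩
    exact absurd (hjy.trans (hb y hyC)) (not_lt.2 (hj b (Or.inl rfl)))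
  exact absurd (hb j hjC) (not_lt.2 (hj b (Or.inl rfl)))

theorem pigeon {α X : Type u} {τ : Cardinal.{u}} (hτ : ℵ₀ ≤ τ) (S : Set α) (hS : ¬ #S ≤ τ)
    (hX : #X ≤ τ) (f : α → X) : ∃ x, ¬ #{s ∈ S | f s = x} ≤ τ := by
  by_contra h
  push Not at h
  apply hS
  refine small_mono (t := ⋃ x, {s ∈ S | f s = x}) ?_ (small_iUnion hτ hX _ h)
  intro s hs
  exact mem_iUnion.2 ⟨f s, hs, rfl⟩

section
variable {P : Type u} [PartialOrder P]

/-- downward closure -/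
def dn (D : Set P) : Set P := {x | ∃ d ∈ D, x ≤ d}

theorem dn_dir {τ : Cardinal.{u}} {D : Set P} (h : Dir τ D) : Dir τ (dn D) := by
  intro S hS hc
  have h1 : ∀ s : S, ∃ d ∈ D, s.1 ≤ d := fun s => hS s.2
  choose d hd1 hd2 using h1
  obtain ⟨b, hb, hb2⟩ := h (range d) (by rintro _ ⟨s, rfl⟩; exact hd1 s)
    (Cardinal.mk_range_le.trans hc)
  exact ⟨b, ⟨b, hb, le_rfl⟩, fun s hs => (hd2 ⟨s, hs⟩).trans (hb2 _ ⟨⟨s, hs⟩, rfl⟩)⟩

theorem lemU_on {lam : Cardinal.{u}} {I : Type u} [LinearOrder I] [WellFoundedLT I]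
    {κ : I → Cardinal.{u}} (hS : Scale lam κ)
    (hA : ∀ A : Set P, IsAntichain (· ≤ ·) A → #A < lam) (E : Set P) :
    ∃ 𝒟 : I → Set (Set P), (∀ i, #(𝒟 i) ≤ 2 ^ κ i) ∧
      (∀ i, ∀ D ∈ 𝒟 i, D ⊆ E ∧ Dir (2 ^ κ i) D) ∧
      ∀ x ∈ E, ∃ i0, ∀ i, i0 ≤ i → ∃ D ∈ 𝒟 i, x ∈ D := by
  obtain ⟨𝒟, h1, h2, h3⟩ := lemU (Q := E) κ hS.inf (fun i j hij => hS.mono hij)
    (fun i => (Cardinal.mk_set_le _).trans (hS.cardI i))
  refine ⟨fun i => (fun D : Set E => (Subtype.val '' D : Set P)) '' 𝒟 i, ?_, ?_, ?_⟩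
  · intro i
    exact Cardinal.mk_image_le.trans (h1 i)
  · rintro i _ ⟨D, hD, rfl⟩
    refine ⟨?_, ?_⟩
    · rintro _ ⟨x, _, rfl⟩
      exact x.2
    · intro S hS' hc
      obtain ⟨b, hb, hb2⟩ := h2 i D hD (Subtype.val ⁻¹' S) (by
        intro x hx
        obtain ⟨y, hy, hyx⟩ := hS' hx
        have : y = x := Subtype.ext hyx
        exact this ▸ hy)
        ((Cardinal.mk_preimage_of_injective _ _ Subtype.val_injective).trans hc)
      refine ⟨b.1, ⟨b, hb, rfl⟩, ?_⟩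
      intro s hs
      obtain ⟨y, hy, hys⟩ := hS' hs
      have h4 := hb2 y (by change y.1 ∈ S; rw [hys]; exact hs)
      rw [← hys]
      exact h4
  · intro x hx
    obtain ⟨A, hA1, hA2⟩ := h3 ⟨x, hx⟩
    have h4 : #A < lam := by
      rw [← Cardinal.mk_image_eq (s := A) (f := (Subtype.val : E → P)) Subtype.val_injective]
      apply hA
      rintro _ ⟨a, ha, rfl⟩ _ ⟨b, hb, rfl⟩ hab hle
      exact hA1 ha hb (fun h => hab (congrArg _ h)) hle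
    obtain ⟨i0, hi0⟩ := hS.cofinal _ h4
    refine ⟨i0, ?_⟩
    intro i hi
    by_contra hcon
    push Not at hcon
    have h5 : κ i < #A := by
      apply hA2 i
      intro D hD hxD
      exact hcon _ ⟨D, hD, rfl⟩ ⟨⟨x, hx⟩, hxD, rfl⟩
    exact absurd (hi0.trans_le (hS.mono hi)) (not_lt.2 h5.le)

theorem core {lam : Cardinal.{u}} (hlam : lam.IsSingular)
    (hsl : ∀ c < lam, (2 : Cardinal.{u}) ^ c < lam)
    (hA : ∀ A : Set P, IsAntichain (· ≤ ·) A → #A < lam) :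
    ∃ ν < lam, CovBy (univ : Set P) ν := by
  classical
  by_contra hcon
  push Not at hcon
  set I := (lam.ord.cof).ord.ToType with hIdef
  obtain ⟨κ, hS, hg⟩ : ∃ κ : I → Cardinal.{u}, Scale lam κ ∧
      ∀ i j, i < j → Order.succ (2 ^ κ i) ≤ κ j :=
    exists_growing_scale lam hlam (fun c => Order.succ (2 ^ c))
      (fun c hc => hlam.isSuccLimit.succ_lt (hsl c hc))
  have hcI : #I = lam.ord.cof := Cardinal.mk_ord_toType _
  have hcof0 : lam.ord.cof ≠ 0 := by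
    rw [Ne, Ordinal.cof_eq_zero]
    intro h0
    exact hlam.pos.ne' (by simpa using h0)
  have hIne : Nonempty I := by
    rw [← Cardinal.mk_ne_zero_iff, hcI]
    exact hcof0
  have hlim : Order.IsSuccLimit lam.ord := Cardinal.isSuccLimit_ord hlam.aleph0_le
  have hcofinf : ℵ₀ ≤ lam.ord.cof := by
    rw [Ordinal.aleph0_le_cof_iff, Ordinal.one_lt_cof_iff]
    exact hlim
  have hinf := hlam.aleph0_le
  have hτinf : ∀ i, ℵ₀ ≤ (2 : Cardinal.{u}) ^ κ i := fun i =>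
    (hS.inf i).trans (Cardinal.cantor _).le
  have hκτ : ∀ i, κ i ≤ 2 ^ κ i := fun i => (Cardinal.cantor _).le
  have hτlt : ∀ i, (2 : Cardinal.{u}) ^ κ i < lam := fun i => hsl _ (hS.lt i)
  have hτmono : ∀ i j, i ≤ j → (2 : Cardinal.{u}) ^ κ i ≤ 2 ^ κ j := fun i j hij =>
    Cardinal.power_le_power_left two_ne_zero (hS.mono hij)
  have hτpow : ∀ i, ((2 : Cardinal.{u}) ^ κ i) ^ κ i = 2 ^ κ i := by
    intro i
    rw [← Cardinal.power_mul, Cardinal.mul_eq_self (hS.inf i)]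
  obtain ⟨𝒟, hD1, hD2, hD3⟩ := lemU_on hS hA univ
  let T : I → Set (Set P) := fun i => dn '' 𝒟 i
  have hT1 : ∀ i, #(T i) ≤ 2 ^ κ i := fun i => Cardinal.mk_image_le.trans (hD1 i)
  have hT2 : ∀ i, ∀ J ∈ T i, Dir (2 ^ κ i) J := by
    rintro i _ ⟨D, hD, rfl⟩
    exact dn_dir (hD2 i D hD).2
  let TT : Set (Set P) := ⋃ i, T i
  have hTT1 : #TT ≤ lam := small_iUnion hinf hS.cardI_lam _ (fun i => (hT1 i).trans (hτlt i).le)
  have hlow : ∀ J ∈ TT, ∀ x y, y ∈ J → x ≤ y → x ∈ J := by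
    intro J hJ x y hy hxy
    obtain ⟨i, D, hD, rfl⟩ := mem_iUnion.1 hJ
    obtain ⟨d, hd, hyd⟩ := hy
    exact ⟨d, hd, hxy.trans hyd⟩
  by_cases hT : ∀ A : Set TT, IsAntichain (· ≤ ·) A → #A < lam
  · obtain ⟨ν, hν, JJ, h1, h2, h3⟩ := lemK hlam hsl hTT1 hT
    apply hcon ν hν
    refine ⟨(fun J : Set TT => ⋃ t ∈ J, t.1) '' JJ, Cardinal.mk_image_le.trans h1, ?_, ?_⟩
    · rintro _ ⟨J, hJ, rfl⟩
      intro x hx y hy
      simp only [mem_iUnion] at hx hy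
      obtain ⟨t, ht, hxt⟩ := hx
      obtain ⟨t', ht', hyt⟩ := hy
      obtain ⟨t'', ht'', hle, hle'⟩ := h2 J hJ t ht t' ht'
      obtain ⟨i, hi⟩ := mem_iUnion.1 t''.2
      obtain ⟨z, hz, hxz, hyz⟩ := (hT2 i _ hi).directedOn (hτinf i) x (hle hxt) y (hle' hyt)
      refine ⟨z, ?_, hxz, hyz⟩
      simp only [mem_iUnion]
      exact ⟨t'', ht'', hz⟩
    · intro x _
      obtain ⟨i0, hi0⟩ := hD3 x (mem_univ x)
      obtain ⟨D, hD, hxD⟩ := hi0 i0 le_rfl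
      obtain ⟨J, hJ, htJ⟩ := h3 (mem_univ (⟨dn D, mem_iUnion.2 ⟨i0, D, hD, rfl⟩⟩ : TT))
      refine ⟨_, ⟨J, hJ, rfl⟩, ?_⟩
      simp only [mem_iUnion]
      exact ⟨_, htJ, ⟨x, hxD, le_rfl⟩⟩
  push Not at hT
  obtain ⟨A0, hA01, hA02⟩ := hT
  let AA : Set (Set P) := Subtype.val '' A0
  have hAT : ∀ J ∈ AA, J ∈ TT := by
    rintro _ ⟨t, _, rfl⟩
    exact t.2
  have hAanti : ∀ J ∈ AA, ∀ J' ∈ AA, J ≠ J' → ¬ J ⊆ J' := by
    rintro _ ⟨t, ht, rfl⟩ _ ⟨t', ht', rfl⟩ hne hsub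
    exact hA01 ht ht' (fun h => hne (congrArg _ h)) hsub
  have hAcard : lam ≤ #AA := by
    rw [Cardinal.mk_image_eq Subtype.val_injective]
    exact hA02
  have hAdir : ∀ J ∈ AA, ∃ i, Dir (2 ^ κ i) J := by
    intro J hJ
    obtain ⟨i, hi⟩ := mem_iUnion.1 (hAT J hJ)
    exact ⟨i, hT2 i J hi⟩
  -- the structure of each member of `AA`
  have hE : ∀ E ∈ AA, ∃ (DE : I → Set (Set P)) (i0 : I), (∀ i, #(DE i) ≤ 2 ^ κ i) ∧
      (∀ i, ∀ D ∈ DE i, D ⊆ E ∧ Dir (2 ^ κ i) D) ∧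
      ∀ x ∈ E, ∃ y ∈ E, x ≤ y ∧ ∀ i, i0 ≤ i → ∃ D ∈ DE i, y ∈ D := by
    intro E hEA
    obtain ⟨DE, h1, h2, h3⟩ := lemU_on hS hA E
    by_contra hno
    have hno' : ∀ i0, ∃ x ∈ E, ∀ y ∈ E, x ≤ y → ∃ i, i0 ≤ i ∧ ∀ D ∈ DE i, y ∉ D := by
      intro i0
      by_contra hc
      push Not at hc
      exact hno ⟨DE, i0, h1, h2, hc⟩
    choose x hx1 hx2 using hno'
    obtain ⟨i, hi⟩ := hAdir E hEA
    obtain ⟨b, hb, hb2⟩ := hi (range x) (by rintro _ ⟨j, rfl⟩; exact hx1 j)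
      (Cardinal.mk_range_le.trans ((hS.cardI i).trans (hκτ i)))
    obtain ⟨i0, hi0⟩ := h3 b hb
    obtain ⟨j, hj, hj2⟩ := hx2 i0 b hb (hb2 _ ⟨i0, rfl⟩)
    obtain ⟨D, hD, hbD⟩ := hi0 j hj
    exact hj2 D hD hbD
  choose! DE st hDE1 hDE2 hDE3 using hE
  have key : ∀ E ∈ AA, ∀ J ∈ AA, E ≠ J → ∀ j, st E ≤ j → ∃ D ∈ DE E j, ¬ D ⊆ J := by
    intro E hEA J hJA hne j hj
    obtain ⟨x, hxE, hxJ⟩ := not_subset.1 (hAanti E hEA J hJA hne)
    obtain ⟨y, hyE, hxy, hy⟩ := hDE3 E hEA x hxE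
    obtain ⟨D, hD, hyD⟩ := hy j hj
    refine ⟨D, hD, ?_⟩
    intro hsub
    exact hxJ (hlow J (hAT J hJA) x y (hsub hyD) hxy)
  have hbig : ∀ i, ∃ (Tt : Set (Set P)) (s : I), Tt ⊆ AA ∧
      (∀ E ∈ Tt, Dir (2 ^ κ i) E ∧ st E ≤ s) ∧ #Tt ≤ Order.succ (2 ^ κ i) ∧
      ¬ #Tt ≤ 2 ^ κ i := by
    intro i
    have h1 : ¬ #{E ∈ AA | Dir (2 ^ κ i) E} ≤ 2 ^ κ i := by
      intro h
      have h2 : #AA ≤ 2 ^ κ i := by
        refine small_mono (t := {E ∈ AA | Dir (2 ^ κ i) E} ∪ ⋃ j ∈ Iio i, T j) ?_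
          (small_union (hτinf i) h (small_biUnion (hτinf i) (Iio i)
            ((Cardinal.mk_set_le _).trans ((hS.cardI i).trans (hκτ i))) _ ?_))
        · intro E hEA
          obtain ⟨j, hj⟩ := mem_iUnion.1 (hAT E hEA)
          rcases lt_or_ge j i with hji | hji
          · right
            simp only [mem_iUnion]
            exact ⟨j, hji, hj⟩
          · left
            exact ⟨hEA, (hT2 j E hj).mono (hτmono i j hji)⟩
        · intro j hj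
          exact (hT1 j).trans (hτmono j i (le_of_lt hj))
      exact absurd (hAcard.trans h2) (not_le.2 (hτlt i))
    obtain ⟨B0, hB0, hB0c⟩ := Cardinal.le_mk_iff_exists_subset.1
      (Order.succ_le_of_lt (not_le.1 h1))
    obtain ⟨s, hs⟩ := pigeon (hτinf i) B0 (by rw [hB0c]; exact not_le.2 (Order.lt_succ _))
      ((hS.cardI i).trans (hκτ i)) st
    refine ⟨{E ∈ B0 | st E = s}, s, ?_, ?_, ?_, hs⟩
    · rintro E ⟨hE1, _⟩
      exact (hB0 hE1).1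
    · rintro E ⟨hE1, hE2⟩
      exact ⟨(hB0 hE1).2, hE2.le⟩
    · exact (small_mono (fun E hE => hE.1) le_rfl).trans hB0c.le
  choose Tt s hTt1 hTt2 hTt3 hTt4 using hbig
  let W : I → Set (Set P) := fun j => ⋃ i ∈ Iio j, Tt i
  have hW : ∀ j, #(W j) ≤ κ j := by
    intro j
    refine small_biUnion (hS.inf j) (Iio j) ((Cardinal.mk_set_le _).trans (hS.cardI j)) _ ?_
    intro i hi
    exact (hTt3 i).trans (hg i j hi)
  have hWA : ∀ j, W j ⊆ AA := by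
    intro j E hE
    simp only [W, mem_iUnion] at hE
    obtain ⟨i, _, hi⟩ := hE
    exact hTt1 i hi
  have hphi : ∀ j, ∃ (Φ : W j → Set P) (B : Set (Set P)), B ⊆ Tt j \ W j ∧ #B = κ j ∧
      ∀ J ∈ B, ∀ E : W j, st E.1 ≤ j → Φ E ∈ DE E.1 j ∧ ¬ Φ E ⊆ J := by
    intro j
    let Ej : Set (Set P) := {∅} ∪ ⋃ E ∈ W j, DE E j
    have hEj : #Ej ≤ 2 ^ κ j := by
      refine small_union (hτinf j) (small_singleton (hτinf j) _)
        (small_biUnion (hτinf j) (W j) ((hW j).trans (hκτ j)) _ ?_)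
      intro E hE
      exact hDE1 E (hWA j hE) j
    have hφ : ∀ J : Set P, ∃ φ : W j → Ej, J ∈ Tt j \ W j → ∀ E : W j, st E.1 ≤ j →
        (φ E).1 ∈ DE E.1 j ∧ ¬ (φ E).1 ⊆ J := by
      intro J
      by_cases hJ : J ∈ Tt j \ W j
      · have h1 : ∀ E : W j, ∃ D : Ej, st E.1 ≤ j → D.1 ∈ DE E.1 j ∧ ¬ D.1 ⊆ J := by
          intro E
          by_cases hE : st E.1 ≤ j
          · have hne : E.1 ≠ J := by
              intro h
              exact hJ.2 (h ▸ E.2)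
            obtain ⟨D, hD1, hD2⟩ := key E.1 (hWA j E.2) J (hTt1 j hJ.1) hne j hE
            refine ⟨⟨D, Or.inr ?_⟩, fun _ => ⟨hD1, hD2⟩⟩
            simp only [mem_iUnion]
            exact ⟨E.1, E.2, hD1⟩
          · exact ⟨⟨∅, Or.inl rfl⟩, fun h => absurd h hE⟩
        choose φ hφ using h1
        exact ⟨φ, fun _ => hφ⟩
      · exact ⟨fun _ => ⟨∅, Or.inl rfl⟩, fun h => absurd h hJ⟩
    choose φ hφ using hφ
    have hX : #(W j → Ej) ≤ 2 ^ κ j := by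
      rw [← Cardinal.power_def]
      calc #Ej ^ #(W j) ≤ (2 ^ κ j) ^ #(W j) := Cardinal.power_le_power_right hEj
        _ ≤ (2 ^ κ j) ^ κ j := Cardinal.power_le_power_left
            (Cardinal.aleph0_pos.trans_le (hτinf j)).ne' (hW j)
        _ = 2 ^ κ j := hτpow j
    obtain ⟨Φ0, hΦ0⟩ := pigeon (hτinf j) (Tt j \ W j)
      (not_small_diff (hτinf j) (hTt4 j) ((hW j).trans (hκτ j))) hX φ
    obtain ⟨B, hB, hBc⟩ := Cardinal.le_mk_iff_exists_subset.1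
      ((hκτ j).trans (not_le.1 hΦ0).le)
    refine ⟨fun E => (Φ0 E).1, B, fun J hJ => (hB hJ).1, hBc, ?_⟩
    intro J hJ E hE
    have h1 := hφ J (hB hJ).1 E hE
    have h2 : φ J = Φ0 := (hB hJ).2
    rw [h2] at h1
    exact h1
  choose Φ B hB1 hB2 hB3 using hphi
  have hBA : ∀ j, B j ⊆ AA := fun j J hJ => hTt1 j (hB1 j hJ).1
  have star : ∀ j, ∀ E ∈ W j, st E ≤ j → ∃ x ∈ E, ∀ J ∈ B j, x ∉ J := by
    intro j E hEW hst
    have h1 : ∀ J : B j, ∃ y ∈ Φ j ⟨E, hEW⟩, y ∉ J.1 := fun J =>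
      not_subset.1 (hB3 j J.1 J.2 ⟨E, hEW⟩ hst).2
    choose y hy1 hy2 using h1
    obtain ⟨J0, hJ0⟩ : (B j).Nonempty := by
      apply exists_of_not_small (c := 0)
      rw [hB2 j]
      exact not_le.2 (Cardinal.aleph0_pos.trans_le (hS.inf j))
    have hD := (hB3 j J0 hJ0 ⟨E, hEW⟩ hst).1
    obtain ⟨b, hb, hb2⟩ := (hDE2 E (hWA j hEW) j _ hD).2 (range y)
      (by rintro _ ⟨J, rfl⟩; exact hy1 J)
      (Cardinal.mk_range_le.trans ((hB2 j).le.trans (hκτ j)))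
    refine ⟨b, (hDE2 E (hWA j hEW) j _ hD).1 hb, ?_⟩
    intro J hJ hbJ
    exact hy2 ⟨J, hJ⟩ (hlow J (hAT J (hBA j hJ)) _ b hbJ (hb2 _ ⟨⟨J, hJ⟩, rfl⟩))
  obtain ⟨C, hC1, hC2⟩ := exists_sparse hcofinf (Ordinal.cof_ord_cof lam.ord) s
  have hfin : ∀ E ∈ ⋃ i ∈ C, B i, ∃ x ∈ E, ∀ J ∈ ⋃ i ∈ C, B i, J ≠ E → x ∉ J := by
    intro E hE
    simp only [mem_iUnion] at hE
    obtain ⟨i, hiC, hEi⟩ := hE
    have hEA : E ∈ AA := hBA i hEi
    have hETt : E ∈ Tt i := (hB1 i hEi).1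
    obtain ⟨hEdir, hEst⟩ := hTt2 i E hETt
    obtain ⟨e0, he0, -⟩ := hEdir ∅ (empty_subset _) (by simp)
    have h1 : ∀ j, ∃ x ∈ E, j ∈ C → i < j → ∀ J ∈ B j, x ∉ J := by
      intro j
      by_cases hj : j ∈ C ∧ i < j
      · obtain ⟨x, hx1, hx2⟩ := star j E (by
          simp only [W, mem_iUnion]
          exact ⟨i, hj.2, hETt⟩) (hEst.trans (hC1 i hiC j hj.1 hj.2))
        exact ⟨x, hx1, fun _ _ => hx2⟩
      · exact ⟨e0, he0, fun h2 h3 => absurd ⟨h2, h3⟩ hj⟩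
    have h2 : ∀ J : Set P, ∃ z ∈ E, J ∈ AA → J ≠ E → z ∉ J := by
      intro J
      by_cases hJ : J ∈ AA ∧ J ≠ E
      · obtain ⟨z, hz1, hz2⟩ := not_subset.1 (hAanti E hEA J hJ.1 hJ.2.symm)
        exact ⟨z, hz1, fun _ _ => hz2⟩
      · exact ⟨e0, he0, fun h2 h3 => absurd ⟨h2, h3⟩ hJ⟩
    choose x hx1 hx2 using h1
    choose z hz1 hz2 using h2
    obtain ⟨b, hb, hb2⟩ := hEdir (range x ∪ z '' (⋃ j ∈ Iic i, B j)) (by
      rintro _ (⟨j, rfl⟩ | ⟨J, _, rfl⟩)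
      · exact hx1 j
      · exact hz1 J) (by
      refine small_union (hτinf i) (Cardinal.mk_range_le.trans ((hS.cardI i).trans (hκτ i)))
        (Cardinal.mk_image_le.trans ?_)
      refine small_biUnion (hτinf i) (Iic i)
        ((Cardinal.mk_set_le _).trans ((hS.cardI i).trans (hκτ i))) _ ?_
      intro j hj
      exact (hB2 j).le.trans ((hS.mono hj).trans (hκτ i)))
    refine ⟨b, hb, ?_⟩
    intro J hJ hne hbJ
    simp only [mem_iUnion] at hJ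
    obtain ⟨j, hjC, hJj⟩ := hJ
    have hJA : J ∈ AA := hBA j hJj
    rcases lt_or_ge i j with hij | hij
    · exact hx2 j hjC hij J hJj (hlow J (hAT J hJA) _ b hbJ (hb2 _ (Or.inl ⟨j, rfl⟩)))
    · refine hz2 J hJA hne (hlow J (hAT J hJA) _ b hbJ (hb2 _ (Or.inr ⟨J, ?_, rfl⟩)))
      simp only [mem_iUnion]
      exact ⟨j, hij, hJj⟩
  have hPne : Nonempty P := by
    by_contra hP
    rw [not_nonempty_iff] at hP
    exact hcon 0 hlam.pos ⟨∅, by simp, by simp, fun p _ => isEmptyElim p⟩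
  choose! x hx1 hx2 using hfin
  have hinj : InjOn x (⋃ i ∈ C, B i) := by
    intro E hE J hJ hEJ
    by_contra hne
    have h1 := hx2 E hE J hJ (Ne.symm hne)
    rw [hEJ] at h1
    exact h1 (hx1 J hJ)
  have hBsub : ∀ J ∈ ⋃ i ∈ C, B i, J ∈ AA := by
    intro J hJ
    simp only [mem_iUnion] at hJ
    obtain ⟨j, _, hJj⟩ := hJ
    exact hBA j hJj
  have hanti : IsAntichain (· ≤ ·) (x '' (⋃ i ∈ C, B i)) := by
    rintro _ ⟨E, hE, rfl⟩ _ ⟨J, hJ, rfl⟩ hne hle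
    have hne' : J ≠ E := by
      rintro rfl
      exact hne rfl
    exact hx2 E hE J hJ hne' (hlow J (hAT J (hBsub J hJ)) _ _ (hx1 J hJ) hle)
  have hlt := hA _ hanti
  rw [Cardinal.mk_image_eq_of_injOn _ _ hinj] at hlt
  obtain ⟨i, hi⟩ := hS.cofinal _ hlt
  obtain ⟨j, hjC, hij⟩ := hC2 i
  have h1 : κ j ≤ #(⋃ i ∈ C, B i) := by
    rw [← hB2 j]
    exact Cardinal.mk_le_mk_of_subset (subset_biUnion_of_mem hjC)
  exact absurd (hi.trans_le (hS.mono hij)) (not_lt.2 h1)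

end

end Pool.Agent.Helper113.F
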