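import Pool.Agent.Helper113.FBasic

set_option autoImplicit false

universe u

namespace Pool.Agent.Helper113.F

open Cardinal Set Pool.Agent.Helper113.G

/-- a scale with prescribed growth -/
theorem exists_growing_scale (lam : Cardinal.{u}) (hlam : lam.IsSingular)
    (G : Cardinal.{u} → Cardinal.{u}) (hG : ∀ c < lam, G c < lam) :
    ∃ mu : (lam.ord.cof).ord.ToType → Cardinal.{u}, Scale lam mu ∧
      ∀ i j, i < j → G (mu i) ≤ mu j := by
  classical
  set I := (lam.ord.cof).ord.ToType with hIdef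
  have hI : #I = lam.ord.cof := Cardinal.mk_ord_toType _
  have hlim : Order.IsSuccLimit lam.ord := Cardinal.isSuccLimit_ord hlam.aleph0_le
  have hcofinf : ℵ₀ ≤ lam.ord.cof := by
    rw [Ordinal.aleph0_le_cof_iff, Ordinal.one_lt_cof_iff]
    exact hlim
  have hseg : ∀ i : I, #(Iio i) < #I := by
    intro i
    exact Cardinal.mk_Iio_lt i (by rw [hI]; simp [I])
  -- a cofinal family of cardinals
  obtain ⟨f, hf1, hf2⟩ : ∃ f : I → Cardinal.{u}, (∀ i, f i < lam) ∧ ∀ c < lam, ∃ i, c ≤ f i := by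
    obtain ⟨S, hS, hScard⟩ := Order.exists_cof_eq (α := lam.ord.ToType)
    rw [Ordinal.cof_toType] at hScard
    have e : I ≃ S := by
      apply Classical.choice
      rw [← Cardinal.eq, hI, hScard]
    refine ⟨fun i => (Ordinal.ToType.mk.symm (e i).1).1.card, ?_, ?_⟩
    · intro i
      have h : (Ordinal.ToType.mk.symm (e i).1).1 < lam.ord :=
        (Ordinal.ToType.mk.symm (e i).1).2
      exact Cardinal.lt_ord.1 h
    · intro c hc
      have h1 : c.ord < lam.ord := Cardinal.ord_lt_ord.2 hc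
      obtain ⟨y, hyS, hxy⟩ := hS (Ordinal.ToType.mk ⟨c.ord, h1⟩)
      refine ⟨e.symm ⟨y, hyS⟩, ?_⟩
      beta_reduce
      rw [e.apply_symm_apply]
      have h2 : (⟨c.ord, h1⟩ : Iio lam.ord) ≤ Ordinal.ToType.mk.symm y := by
        rw [← Ordinal.ToType.mk.le_iff_le, Ordinal.ToType.mk.apply_symm_apply]
        exact hxy
      have h3 : c.ord ≤ (Ordinal.ToType.mk.symm y).1 := h2
      have h4 := Ordinal.card_le_card h3
      rwa [Cardinal.card_ord] at h4
  obtain ⟨mu, hmu⟩ := rec_choice (ι := I) (β := Cardinal.{u}) (r := (· < ·)) wellFounded_lt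
    (fun i g b => (∀ j < i, g j < lam) → (b < lam ∧ ∃ c, c < b ∧ ℵ₀ ≤ c ∧ #I ≤ c ∧ f i ≤ c ∧
      ∀ j < i, g j ≤ c ∧ G (g j) ≤ c))
    (by
      intro i g g' b hgg h h'
      obtain ⟨h1, c, h2, h3, h4, h5, h6⟩ := h (fun j hj => by rw [hgg j hj]; exact h' j hj)
      exact ⟨h1, c, h2, h3, h4, h5, fun j hj => by rw [← hgg j hj]; exact h6 j hj⟩)
    (by
      intro i g _
      by_cases hg : ∀ j < i, g j < lam
      · let s : Cardinal.{u} := ⨆ j : Iio i, max (g j.1) (G (g j.1))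
        have hs : s < lam := by
          apply Cardinal.iSup_lt_of_lt_cof_ord
          · exact (hseg i).trans_eq hI
          · intro j
            exact max_lt (hg j.1 j.2) (hG _ (hg j.1 j.2))
        have hcof : lam.ord.cof < lam := hlam.cof_ord_lt
        let c : Cardinal.{u} := max (#I) (max (f i) s)
        have hc : c < lam := by
          apply max_lt
          · rw [hI]; exact hcof
          · exact max_lt (hf1 i) hs
        refine ⟨Order.succ c, fun _ => ⟨?_, c, Order.lt_succ c, ?_, le_max_left _ _,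
          (le_max_left _ _).trans (le_max_right _ _), ?_⟩⟩
        · exact hlam.isSuccLimit.succ_lt hc
        · exact (hI ▸ hcofinf : ℵ₀ ≤ #I).trans (le_max_left _ _)
        · intro j hj
          have h1 : max (g j) (G (g j)) ≤ s :=
            le_ciSup (f := fun j : Iio i => max (g j.1) (G (g j.1)))
              Cardinal.bddAbove_of_small ⟨j, hj⟩
          have h2 : s ≤ c := (le_max_right _ _).trans (le_max_right _ _)
          exact ⟨(le_max_left _ _).trans (h1.trans h2), (le_max_right _ _).trans (h1.trans h2)⟩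
      · exact ⟨0, fun h => absurd h hg⟩)
  have hlt : ∀ i, mu i < lam := by
    intro i
    induction i using WellFoundedLT.induction with
    | _ i ih => exact (hmu i ih).1
  have hmu' : ∀ i, ∃ c, c < mu i ∧ ℵ₀ ≤ c ∧ #I ≤ c ∧ f i ≤ c ∧
      ∀ j < i, mu j ≤ c ∧ G (mu j) ≤ c :=
    fun i => (hmu i (fun j _ => hlt j)).2
  refine ⟨mu, ⟨?_, hlt, ?_, ?_, ?_, ?_, hseg⟩, ?_⟩
  · intro i
    obtain ⟨c, h1, h2, _⟩ := hmu' i
    exact h2.trans h1.le
  · intro i
    obtain ⟨c, h1, h2, h3, _⟩ := hmu' i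
    exact h3.trans h1.le
  · intro i j hij
    obtain ⟨c, h1, h2, h3, h4, h5⟩ := hmu' j
    exact Order.succ_le_of_lt ((h5 i hij).1.trans_lt h1)
  · intro i
    obtain ⟨c, h1, h2, h3, h4, h5⟩ := hmu' i
    exact ⟨c, h1, h2, h3, fun j hj => (h5 j hj).1⟩
  · intro c hc
    obtain ⟨i, hi⟩ := hf2 c hc
    obtain ⟨c', h1, h2, h3, h4, h5⟩ := hmu' i
    exact ⟨i, (hi.trans h4).trans_lt h1⟩
  · intro i j hij
    obtain ⟨c, h1, h2, h3, h4, h5⟩ := hmu' j
    exact (h5 i hij).2.trans h1.le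

section
variable {Q : Type u} [Preorder Q]

/-- small sets are uniformly covered by few directed sets -/
theorem small_cov {lam : Cardinal.{u}} (hlam : lam.IsSingular)
    (hsl : ∀ c < lam, (2 : Cardinal.{u}) ^ c < lam)
    (hA : ∀ A : Set Q, IsAntichain (· ≤ ·) A → #A < lam) :
    ∃ ν < lam, ∀ C : Set Q, #C < lam → CovBy C ν := by
  classical
  by_contra hcon
  push Not at hcon
  have h1 : ∀ ν : Cardinal.{u}, ∃ C : Set Q, #C < lam ∧ (ν < lam → ¬ CovBy C ν) := by
    intro ν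
    by_cases hν : ν < lam
    · obtain ⟨C, hC1, hC2⟩ := hcon ν hν
      exact ⟨C, hC1, fun _ => hC2⟩
    · exact ⟨∅, by simpa using hlam.pos, fun h => absurd h hν⟩
  choose C hC1 hC2 using h1
  set I := (lam.ord.cof).ord.ToType with hIdef
  obtain ⟨κ, hS, hg⟩ : ∃ κ : I → Cardinal.{u}, Scale lam κ ∧
      ∀ i j, i < j → #(C (2 ^ κ i)) ≤ κ j :=
    exists_growing_scale lam hlam (fun c => #(C (2 ^ c))) (fun c _ => hC1 _)
  have hcI : #(lam.ord.cof).ord.ToType = lam.ord.cof := Cardinal.mk_ord_toType _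
  have hcof0 : lam.ord.cof ≠ 0 := by
    rw [Ne, Ordinal.cof_eq_zero]
    intro h0
    exact hlam.pos.ne' (by simpa using h0)
  have hIne : Nonempty (lam.ord.cof).ord.ToType := by
    rw [← Cardinal.mk_ne_zero_iff, hcI]
    exact hcof0
  have hτinf : ∀ i, ℵ₀ ≤ (2 : Cardinal.{u}) ^ κ i := fun i =>
    (hS.inf i).trans (Cardinal.cantor _).le
  let D : I → Set Q := fun i => C (2 ^ κ i)
  have hD : ∀ i, ¬ CovBy (D i) (2 ^ κ i) := fun i => hC2 _ (hsl _ (hS.lt i))
  let U : I → Set Q := fun i => ⋃ j ∈ Iio i, D j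
  have hU : ∀ i, #(U i) ≤ κ i := by
    intro i
    refine small_biUnion (hS.inf i) (Iio i) ((Cardinal.mk_set_le _).trans (hS.cardI i)) _ ?_
    intro j hj
    exact hg j i hj
  have hstep : ∀ i, ∃ x ∈ D i, ¬ CovBy {y ∈ D i | ∀ a ∈ U i, (a ≤ y ↔ a ≤ x) ∧ (y ≤ a ↔ x ≤ a)}
      (2 ^ κ i) := by
    intro i
    by_contra hno
    push Not at hno
    apply hD i
    let tr : Q → Set (U i) × Set (U i) := fun y => ({a | a.1 ≤ y}, {a | y ≤ a.1})
    have hcov : ∀ t : Set (U i) × Set (U i), CovBy {y ∈ D i | tr y = t} (2 ^ κ i) := by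
      intro t
      by_cases ht : ∃ x ∈ D i, tr x = t
      · obtain ⟨x, hx, hxt⟩ := ht
        refine (hno x hx).mono ?_ le_rfl
        rintro y ⟨hy, hyt⟩
        refine ⟨hy, ?_⟩
        intro a ha
        have heq : tr y = tr x := hyt.trans hxt.symm
        have e1 : ({a | a.1 ≤ y} : Set (U i)) = {a | a.1 ≤ x} := congrArg Prod.fst heq
        have e2 : ({a | y ≤ a.1} : Set (U i)) = {a | x ≤ a.1} := congrArg Prod.snd heq
        constructor
        · have := Set.ext_iff.1 e1 ⟨a, ha⟩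
          exact this
        · have := Set.ext_iff.1 e2 ⟨a, ha⟩
          exact this
      · have : {y ∈ D i | tr y = t} = ∅ := by
          ext y
          constructor
          · rintro ⟨h1, h2⟩
            exact absurd ⟨y, h1, h2⟩ ht
          · intro h
            exact absurd h (by simp)
        rw [this]
        exact ⟨∅, by simp, by simp, by simp⟩
    refine (CovBy.iUnion (hτinf i) ?_ hcov).mono ?_ le_rfl
    · rw [Cardinal.mk_prod, Cardinal.lift_id, Cardinal.mk_set]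
      have : (2 : Cardinal.{u}) ^ #(U i) ≤ 2 ^ κ i :=
        Cardinal.power_le_power_left two_ne_zero (hU i)
      calc _ ≤ (2 : Cardinal.{u}) ^ κ i * 2 ^ κ i := mul_le_mul' this this
        _ = 2 ^ κ i := Cardinal.mul_eq_self (hτinf i)
    · intro y hy
      exact mem_iUnion.2 ⟨tr y, hy, rfl⟩
  choose x hx1 hx2 using hstep
  have hstep2 : ∀ i, ∃ A : Set Q, A ⊆ {y ∈ D i | (∀ a ∈ U i, (a ≤ y ↔ a ≤ x i) ∧
      (y ≤ a ↔ x i ≤ a)) ∧ ∀ j, i < j → ¬ y ≤ x j} ∧ IsAntichain (· ≤ ·) A ∧ κ i < #A := by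
    intro i
    rcases milner_prikry (hS.inf i) {y ∈ D i | (∀ a ∈ U i, (a ≤ y ↔ a ≤ x i) ∧
      (y ≤ a ↔ x i ≤ a)) ∧ ∀ j, i < j → ¬ y ≤ x j} with h | h
    · exfalso
      apply hx2 i
      have h2 : CovBy (⋃ j, Iic (x j)) (2 ^ κ i) :=
        CovBy.iUnion (hτinf i) ((hS.cardI i).trans (Cardinal.cantor _).le)
          (fun j => covBy_Iic _ ((one_lt_aleph0.le).trans (hτinf i)))
      refine (h.union (hτinf i) h2).mono ?_ le_rfl
      rintro y ⟨hy1, hy2⟩
      by_cases hy : ∀ j, i < j → ¬ y ≤ x j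
      · exact Or.inl ⟨hy1, hy2, hy⟩
      · push Not at hy
        obtain ⟨j, _, hj⟩ := hy
        exact Or.inr (mem_iUnion.2 ⟨j, hj⟩)
    · exact h
  choose A hA1 hA2 hA3 using hstep2
  have hcross : ∀ i j, i < j → ∀ a ∈ A i, ∀ b ∈ A j, ¬ a ≤ b ∧ ¬ b ≤ a := by
    intro i j hij a ha b hb
    have ha' := hA1 i ha
    have hb' := hA1 j hb
    have haU : a ∈ U j := by
      simp only [U, mem_iUnion]
      exact ⟨i, hij, ha'.1⟩
    refine ⟨?_, ?_⟩
    · intro hab
      exact ha'.2.2 j hij ((hb'.2.1 a haU).1.1 hab)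
    · intro hba
      apply hx2 j
      refine (covBy_Iic a ((one_lt_aleph0.le).trans (hτinf j))).mono ?_ le_rfl
      rintro y ⟨hy1, hy2⟩
      exact (hy2 a haU).2.2 ((hb'.2.1 a haU).2.1 hba)
  have hanti : IsAntichain (· ≤ ·) (⋃ i, A i) := by
    intro a ha b hb hab
    obtain ⟨i, hi⟩ := mem_iUnion.1 ha
    obtain ⟨j, hj⟩ := mem_iUnion.1 hb
    rcases lt_trichotomy i j with h | h | h
    · exact (hcross i j h a hi b hj).1
    · subst h
      exact hA2 i hi hj hab
    · exact (hcross j i h b hj a hi).2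
  have hlt := hA _ hanti
  obtain ⟨i, hi⟩ := hS.cofinal _ hlt
  have : #(A i) ≤ #(⋃ i, A i) := Cardinal.mk_le_mk_of_subset (subset_iUnion A i)
  exact absurd (hi.trans (hA3 i)) (not_lt.2 this)

/-- Lemma K -/
theorem lemK {lam : Cardinal.{u}} (hlam : lam.IsSingular)
    (hsl : ∀ c < lam, (2 : Cardinal.{u}) ^ c < lam) (hQ : #Q ≤ lam)
    (hA : ∀ A : Set Q, IsAntichain (· ≤ ·) A → #A < lam) :
    ∃ ν < lam, CovBy (univ : Set Q) ν := by
  classical
  obtain ⟨ν, hν, hcov⟩ := small_cov hlam hsl hA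
  set I := (lam.ord.cof).ord.ToType with hIdef
  obtain ⟨κ, hS⟩ : ∃ κ : I → Cardinal.{u}, Scale lam κ := exists_scale lam hlam
  have hcI : #(lam.ord.cof).ord.ToType = lam.ord.cof := Cardinal.mk_ord_toType _
  have hcof0 : lam.ord.cof ≠ 0 := by
    rw [Ne, Ordinal.cof_eq_zero]
    intro h0
    exact hlam.pos.ne' (by simpa using h0)
  have hIne : Nonempty (lam.ord.cof).ord.ToType := by
    rw [← Cardinal.mk_ne_zero_iff, hcI]
    exact hcof0
  have hlt : lam ≤ #(Σ n : I, (κ n).out) := by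
    by_contra hc
    obtain ⟨n, hn⟩ := hS.cofinal _ (not_le.1 hc)
    have hinj : Function.Injective (fun y : (κ n).out => (⟨n, y⟩ : Σ n : I, (κ n).out)) := by
      intro x y h
      simpa using (Sigma.mk.inj h).2
    have h2 : κ n ≤ #(Σ n : I, (κ n).out) := by
      calc κ n = #((κ n).out) := (Cardinal.mk_out _).symm
        _ ≤ _ := Cardinal.mk_le_of_injective hinj
    exact absurd hn (not_lt.2 h2)
  obtain ⟨f⟩ := hQ.trans hlt
  let i0 : I := Classical.arbitrary I
  let ν' : Cardinal.{u} := max ν (κ i0)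
  have hν' : ν' < lam := max_lt hν (hS.lt i0)
  refine ⟨ν', hν', ?_⟩
  have hinf : ℵ₀ ≤ ν' := (hS.inf i0).trans (le_max_right _ _)
  refine (CovBy.iUnion (C := fun n : I => {q : Q | (f q).1 = n}) hinf
    ((hS.cardI i0).trans (le_max_right _ _)) ?_).mono ?_ le_rfl
  · intro n
    refine (hcov _ ?_).mono le_rfl (le_max_left _ _)
    refine lt_of_le_of_lt ?_ (hS.lt n)
    have h3' : ∀ (p : Σ n : I, (κ n).out), p.1 = n → ∃ y : (κ n).out, p = ⟨n, y⟩ := by
      rintro ⟨m, y⟩ hp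
      simp only at hp
      subst hp
      exact ⟨y, rfl⟩
    have h3 : ∀ q : {q : Q | (f q).1 = n}, ∃ y : (κ n).out, f q.1 = ⟨n, y⟩ :=
      fun q => h3' (f q.1) q.2
    choose y hy using h3
    calc #({q : Q | (f q).1 = n}) ≤ #((κ n).out) := by
          refine Cardinal.mk_le_of_injective (f := y) ?_
          intro a b hab
          apply Subtype.ext
          apply f.injective
          rw [hy a, hy b, hab]
      _ = κ n := Cardinal.mk_out _
  · intro q _
    exact mem_iUnion.2 ⟨(f q).1, rfl⟩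

end

end Pool.Agent.Helper113.F
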