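import Pool.Agent.Helper113.FFinal

set_option autoImplicit false

universe u

namespace Pool.Agent.Helper113.F

open Cardinal Set Pool.Agent.Helper113.G

section regular
variable {μ : Cardinal.{u}}

theorem mk_Iio_lt_of (i : μ.ord.ToType) : #(Iio i) < μ := by
  have h : #(μ.ord.ToType) = μ := Cardinal.mk_ord_toType _
  have h2 := Cardinal.mk_Iio_lt i (by rw [h]; simp)
  rwa [h] at h2

theorem bounded_of_lt (hreg : μ.IsRegular) (s : Set μ.ord.ToType) (hs : #s < μ) :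
    ∃ j, ∀ i ∈ s, i < j := by
  by_contra hcon
  have h1 : IsCofinal s := by
    by_contra h
    exact hcon (not_isCofinal_iff.1 h)
  have h2 := Order.cof_le h1
  rw [Ordinal.cof_toType, hreg.cof_ord] at h2
  exact absurd hs (not_lt.2 h2)

/-- every nonempty set of size less than `μ` is the range of a function on an initial segment -/
theorem exists_range_Iio {Q : Type u} (hreg : μ.IsRegular) (Y : Set Q) (hne : Y.Nonempty)
    (hY : #Y < μ) : ∃ (j : μ.ord.ToType) (f : Iio j → Q), range f = Y := by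
  classical
  obtain ⟨g⟩ : Nonempty (Y ↪ μ.ord.ToType) := by
    rw [← Cardinal.le_def, Cardinal.mk_ord_toType]
    exact hY.le
  obtain ⟨j, hj⟩ := bounded_of_lt hreg (range g) (Cardinal.mk_range_le.trans_lt hY)
  have : Nonempty Y := hne.to_subtype
  refine ⟨j, fun k => (Function.invFun g k.1 : Y).1, ?_⟩
  ext y
  constructor
  · rintro ⟨k, rfl⟩
    exact (Function.invFun g k.1 : Y).2
  · intro hy
    refine ⟨⟨g ⟨y, hy⟩, hj _ ⟨_, rfl⟩⟩, ?_⟩
    simp only
    rw [Function.leftInverse_invFun g.injective]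

/-- Closure under operations with fewer than `μ` arguments and at most `μ` values. -/
theorem exists_closed_lt {Q : Type u} (hreg : μ.IsRegular) (hpow : ∀ c < μ, μ ^ c ≤ μ)
    (S : Set Q → Set Q) (hS : ∀ Y : Set Q, #Y < μ → #(S Y) ≤ μ) :
    ∃ X : Set Q, #X ≤ μ ∧ ∀ Y ⊆ X, #Y < μ → S Y ⊆ X := by
  classical
  have hinf : ℵ₀ ≤ μ := hreg.aleph0_le
  rcases isEmpty_or_nonempty Q with hQ | hQ
  · exact ⟨∅, by simp, fun Y _ _ y _ => isEmptyElim y⟩
  have he : ∀ Y : Set Q, ∃ e : μ.out → Q, #Y < μ → S Y ⊆ range e := by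
    intro Y
    by_cases hY : #Y < μ
    · obtain ⟨e, he⟩ := exists_range (T := μ.out) (S Y) (by rw [mk_out]; exact hS Y hY)
      exact ⟨e, fun _ => he⟩
    · exact ⟨fun _ => Classical.arbitrary Q, fun h => absurd h hY⟩
  choose e he using he
  let β : μ.out ⊕ (μ.out × μ.ord.ToType) → Type u := Sum.elim (fun _ => PEmpty) (fun p => Iio p.2)
  let step : (Σ a : μ.out ⊕ (μ.out × μ.ord.ToType), β a → Q) → Q := fun p =>
    match p with
    | ⟨Sum.inl t, _⟩ => e ∅ t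
    | ⟨Sum.inr t, f⟩ => e (range f) t.1
  let ev : WType β → Q := WType.elim Q step
  refine ⟨range ev, ?_, ?_⟩
  · refine Cardinal.mk_range_le.trans ?_
    apply WType.cardinalMk_le_of_le
    have h1 : ∀ a : μ.out ⊕ (μ.out × μ.ord.ToType), μ ^ #(β a) ≤ μ := by
      rintro (t | t)
      · change μ ^ #(PEmpty.{u+1}) ≤ μ
        simp only [Cardinal.mk_pempty, Cardinal.power_zero]
        exact (one_lt_aleph0.le).trans hinf
      · exact hpow _ (mk_Iio_lt_of t.2)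
    calc Cardinal.sum (fun a => μ ^ #(β a))
        ≤ Cardinal.sum (fun _ : μ.out ⊕ (μ.out × μ.ord.ToType) => μ) :=
          Cardinal.sum_le_sum _ _ h1
      _ = (μ + μ * μ) * μ := by simp
      _ = μ := by rw [Cardinal.mul_eq_self hinf, Cardinal.add_eq_self hinf,
            Cardinal.mul_eq_self hinf]
  · intro Y hY hcard
    rcases Y.eq_empty_or_nonempty with rfl | hne
    · intro y hy
      obtain ⟨t, ht⟩ := he ∅ hcard hy
      refine ⟨WType.mk (Sum.inl t) (fun x => PEmpty.elim x), ?_⟩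
      exact ht
    · obtain ⟨j, f, hf⟩ := exists_range_Iio hreg Y hne hcard
      have hw : ∀ k, ∃ w : WType β, ev w = f k := by
        intro k
        exact hY (hf ▸ mem_range_self k)
      choose w hw using hw
      intro y hy
      obtain ⟨t, ht⟩ := he Y hcard hy
      refine ⟨WType.mk (Sum.inr (t, j)) w, ?_⟩
      change e (range (fun k => ev (w k))) t = y
      have : (fun k => ev (w k)) = f := funext hw
      rw [this, hf]
      exact ht

theorem card_small_subsets {Q : Type u} (hreg : μ.IsRegular) (hpow : ∀ c < μ, μ ^ c ≤ μ)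
    (X : Set Q) (hX : #X ≤ μ) : #{Y : Set Q | Y ⊆ X ∧ #Y < μ} ≤ μ := by
  classical
  have hinf : ℵ₀ ≤ μ := hreg.aleph0_le
  refine small_mono (t := {∅} ∪ ⋃ j : μ.ord.ToType, range (fun f : Iio j → X =>
    range (fun k => (f k : Q)))) ?_ (small_union hinf (small_singleton hinf _) ?_)
  · rintro Y ⟨hY1, hY2⟩
    rcases Y.eq_empty_or_nonempty with rfl | hne
    · exact Or.inl rfl
    · right
      obtain ⟨j, f, hf⟩ := exists_range_Iio hreg Y hne hY2
      refine mem_iUnion.2 ⟨j, fun k => ⟨f k, hY1 (hf ▸ mem_range_self k)⟩, ?_⟩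
      exact hf
  · refine small_iUnion hinf (Cardinal.mk_ord_toType _).le _ ?_
    intro j
    refine Cardinal.mk_range_le.trans ?_
    have h1 : #(Iio j → X) = #X ^ #(Iio j) := by simp
    rw [h1]
    exact (Cardinal.power_le_power_right hX).trans (hpow _ (mk_Iio_lt_of j))

end regular

section
variable {Q : Type u} [Preorder Q] {μ : Cardinal.{u}}

/-- the common closed set -/
theorem closed_pairs (hreg : μ.IsRegular) (hpow : ∀ c < μ, μ ^ c ≤ μ) :
    ∃ X : Set Q, #X ≤ μ ∧ ∀ Y ⊆ X, #Y < μ → ¬ DirectedOn (· ≤ ·) (IncSet Y) →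
      ∃ a ∈ X, ∃ b ∈ X, a ∈ IncSet Y ∧ b ∈ IncSet Y ∧ ∀ z ∈ IncSet Y, ¬ (a ≤ z ∧ b ≤ z) := by
  classical
  have hinf : ℵ₀ ≤ μ := hreg.aleph0_le
  have hch : ∀ Y : Set Q, ∃ S : Set Q, #S ≤ μ ∧ (¬ DirectedOn (· ≤ ·) (IncSet Y) →
      ∃ a ∈ S, ∃ b ∈ S, a ∈ IncSet Y ∧ b ∈ IncSet Y ∧ ∀ z ∈ IncSet Y, ¬ (a ≤ z ∧ b ≤ z)) := by
    intro Y
    by_cases h : DirectedOn (· ≤ ·) (IncSet Y)
    · exact ⟨∅, by simp, fun h' => absurd h h'⟩
    · have h' := h
      unfold DirectedOn at h'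
      push Not at h'
      obtain ⟨a, ha, b, hb, hab⟩ := h'
      refine ⟨{a, b}, small_finite hinf (by simp), fun _ => ⟨a, by simp, b, by simp, ha, hb, ?_⟩⟩
      rintro z hz ⟨h1, h2⟩
      exact hab z hz h1 h2
  choose S hS1 hS2 using hch
  obtain ⟨X, hX1, hX2⟩ := exists_closed_lt hreg hpow S (fun Y _ => hS1 Y)
  refine ⟨X, hX1, fun Y hY hc hd => ?_⟩
  obtain ⟨a, ha, b, hb, h⟩ := hS2 Y hd
  exact ⟨a, hX2 Y hY hc ha, b, hX2 Y hY hc hb, h⟩

/-- `μ ^ c ≤ μ` for `c < μ`: at most `μ` directed sets suffice. -/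
theorem regular_cov (hreg : μ.IsRegular) (hpow : ∀ c < μ, μ ^ c ≤ μ)
    (hA : ∀ A : Set Q, IsAntichain (· ≤ ·) A → #A < μ) : CovBy (univ : Set Q) μ := by
  classical
  have hinf : ℵ₀ ≤ μ := hreg.aleph0_le
  obtain ⟨X, hX1, hX2⟩ := closed_pairs (Q := Q) hreg hpow
  by_contra hcon
  let D : Set (Set Q) := {D | DirectedOn (· ≤ ·) D ∧ ((∃ Y : Set Q, (Y ⊆ X ∧ #Y < μ) ∧
    IncSet Y = D) ∨ ∃ y ∈ X, Iic y = D)}
  have hD : #D ≤ μ := by
    refine small_mono (t := (IncSet '' {Y : Set Q | Y ⊆ X ∧ #Y < μ}) ∪ (Iic '' X)) ?_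
      (small_union hinf ?_ ?_)
    · rintro D ⟨_, (⟨Y, hY, rfl⟩ | ⟨y, hy, rfl⟩)⟩
      · exact Or.inl ⟨Y, hY, rfl⟩
      · exact Or.inr ⟨y, hy, rfl⟩
    · exact Cardinal.mk_image_le.trans (card_small_subsets hreg hpow X hX1)
    · exact Cardinal.mk_image_le.trans hX1
  obtain ⟨x, hx⟩ : ∃ x : Q, ∀ d ∈ D, x ∉ d := by
    by_contra h
    push Not at h
    refine hcon ⟨D, hD, fun I hI => hI.1, ?_⟩
    intro x _
    obtain ⟨d, hd, hxd⟩ := h x
    exact ⟨d, hd, hxd⟩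
  obtain ⟨A, hA1, hA2, hA3⟩ := greedy (I := PUnit.{u+1}) (fun _ => X) (fun _ _ _ => subset_rfl)
    (Inc : Q → Q → Prop) (fun a b h => ⟨h.2, h.1⟩) (fun y => Inc y x)
  have hanti : IsAntichain (· ≤ ·) A := fun a ha b hb hab => (hA2 a ha b hb hab).1
  have hcard : #(A ∩ X : Set Q) < μ :=
    (Cardinal.mk_le_mk_of_subset inter_subset_left).trans_lt (hA A hanti)
  have hxin : x ∈ IncSet (A ∩ X) := fun y hy => ⟨(hA1 y hy.1).2, (hA1 y hy.1).1⟩
  have hnd : ¬ DirectedOn (· ≤ ·) (IncSet (A ∩ X)) := fun hd =>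
    hx _ ⟨hd, Or.inl ⟨A ∩ X, ⟨inter_subset_right, hcard⟩, rfl⟩⟩ hxin
  obtain ⟨a, haX, b, hbX, ha, hb, hab⟩ := hX2 (A ∩ X) inter_subset_right hcard hnd
  have key : ∀ c ∈ X, c ∈ IncSet (A ∩ X) → c ≤ x := by
    intro c hcX hc
    by_contra hcx
    have hxc : ¬ x ≤ c := by
      intro hle
      refine hx (Iic c) ⟨?_, Or.inr ⟨c, hcX, rfl⟩⟩ hle
      intro z hz w hw
      exact ⟨c, le_rfl, hz, hw⟩
    have hcA : c ∈ A := hA3 PUnit.unit c hcX ⟨hcx, hxc⟩ (fun y hy => ⟨(hc y hy).2, (hc y hy).1⟩)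
    exact (hc c ⟨hcA, hcX⟩).1 le_rfl
  exact hab x hxin ⟨key a haX ha, key b hbX hb⟩

/-- every `μ`-sequence of elements of `2^μ` has a limit point -/
def LimitProp (μ : Cardinal.{u}) : Prop :=
  ∀ F : μ.ord.ToType → μ.ord.ToType → Bool, ∃ f : μ.ord.ToType → Bool,
    ∀ α : μ.ord.ToType, ∃ i, α ≤ i ∧ ∀ j < α, F i j = f j

/-- The theorem of Milner and Prikry on weakly compact cardinals (also valid for `ℵ₀`). -/
theorem weakly_cov (hreg : μ.IsRegular) (hsl : μ.IsStrongLimit) (hpow : ∀ c < μ, μ ^ c ≤ μ)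
    (hlim : LimitProp μ)
    (hA : ∀ A : Set Q, IsAntichain (· ≤ ·) A → #A < μ) :
    ∃ 𝓘 : Set (Set Q), #𝓘 < μ ∧ (∀ I ∈ 𝓘, DirectedOn (· ≤ ·) I) ∧ (Set.univ : Set Q) ⊆ ⋃₀ 𝓘 := by
  classical
  have hinf : ℵ₀ ≤ μ := hreg.aleph0_le
  let J : Set Q → Prop := fun S => ∃ 𝓘 : Set (Set Q), #𝓘 < μ ∧
    (∀ I ∈ 𝓘, DirectedOn (· ≤ ·) I) ∧ S ⊆ ⋃₀ 𝓘
  have Jmono : ∀ S T : Set Q, S ⊆ T → J T → J S := by
    rintro S T hST ⟨I, h1, h2, h3⟩
    exact ⟨I, h1, h2, hST.trans h3⟩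
  have JUnion : ∀ (K : Type u) (_ : #K < μ) (S : K → Set Q), (∀ k, J (S k)) → J (⋃ k, S k) := by
    intro K hK S hS
    choose I h1 h2 h3 using hS
    refine ⟨⋃ k, I k, (Cardinal.card_iUnion_lt_iff_forall_of_isRegular hreg hK).2 h1, ?_, ?_⟩
    · intro D hD
      obtain ⟨k, hk⟩ := mem_iUnion.1 hD
      exact h2 k D hk
    · intro x hx
      obtain ⟨k, hk⟩ := mem_iUnion.1 hx
      obtain ⟨D, hD, hxD⟩ := h3 k hk
      exact ⟨D, mem_iUnion.2 ⟨k, hD⟩, hxD⟩
  have Jdir : ∀ S : Set Q, DirectedOn (· ≤ ·) S → J S := by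
    intro S hS
    refine ⟨{S}, ?_, ?_, by simp⟩
    · rw [Cardinal.mk_singleton]
      exact one_lt_aleph0.trans_le hinf
    · rintro I rfl
      exact hS
  have Junion : ∀ S T : Set Q, J S → J T → J (S ∪ T) := by
    intro S T hS hT
    have h1 : J (⋃ b : ULift.{u} Bool, if b.down then S else T) := by
      refine JUnion (ULift.{u} Bool) ?_ _ ?_
      · refine lt_of_lt_of_le ?_ hinf
        exact Cardinal.lt_aleph0_of_finite _
      · rintro ⟨b⟩
        cases b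
        · simpa using hT
        · simpa using hS
    refine Jmono _ _ ?_ h1
    rintro x (hx | hx)
    · exact mem_iUnion.2 ⟨⟨true⟩, by simpa using hx⟩
    · exact mem_iUnion.2 ⟨⟨false⟩, by simpa using hx⟩
  by_contra hcon
  have hP : ¬ J Set.univ := hcon
  obtain ⟨X, hX1, hX2⟩ := closed_pairs (Q := Q) hreg hpow
  have hQ : Nonempty Q := by
    by_contra h
    rw [not_nonempty_iff] at h
    refine hP (Jdir _ ?_)
    intro x
    exact isEmptyElim x
  obtain ⟨e, he⟩ := exists_range (T := μ.ord.ToType) X (by rw [Cardinal.mk_ord_toType]; exact hX1)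
  -- the status of `x` relative to `e i`
  let F : Q → μ.ord.ToType → Bool := fun x i => decide (e i ≤ x)
  have hxi : ∀ i : μ.ord.ToType, ∃ x : Q, ¬ J {y | ∀ j < i, F y j = F x j} := by
    intro i
    by_contra h
    push Not at h
    apply hP
    have h2 : J (⋃ ψ : Iio i → Bool, {y | ∀ j : Iio i, F y j = ψ j}) := by
      refine JUnion (Iio i → Bool) ?_ _ ?_
      · have : #(Iio i → Bool) = 2 ^ #(Iio i) := by simp
        rw [this]
        exact hsl.isStrongPrelimit (mk_Iio_lt_of i)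
      · intro ψ
        by_cases hne : {y | ∀ j : Iio i, F y j = ψ j}.Nonempty
        · obtain ⟨x, hx⟩ := hne
          refine Jmono _ _ ?_ (h x)
          intro y hy j hj
          rw [hy ⟨j, hj⟩, hx ⟨j, hj⟩]
        · rw [not_nonempty_iff_eq_empty] at hne
          rw [hne]
          exact Jdir _ (fun x hx => absurd hx (by simp))
    refine Jmono _ _ ?_ h2
    intro x _
    exact mem_iUnion.2 ⟨fun j => F x j, fun j => rfl⟩
  choose x hx using hxi
  obtain ⟨f, hf⟩ := hlim (fun i => F (x i))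
  -- positive sets along the branch
  have hpos : ∀ α : μ.ord.ToType,
      ¬ J {y | (∀ j < α, F y j = f j) ∧ ∀ j < α, ¬ y ≤ e j} := by
    intro α hJ
    obtain ⟨i, hi, hij⟩ := hf α
    apply hx i
    refine Jmono _ _ ?_ (Junion _ _ hJ (JUnion (Iio α) (mk_Iio_lt_of α)
      (fun j => Iic (e j)) (fun j => Jdir _ ?_)))
    · intro y hy
      by_cases h : ∀ j < α, ¬ y ≤ e j
      · left
        refine ⟨fun j hj => ?_, h⟩
        rw [← hij j hj]
        exact hy j (hj.trans_le hi)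
      · right
        push Not at h
        obtain ⟨j, hj, hyj⟩ := h
        exact mem_iUnion.2 ⟨⟨j, hj⟩, hyj⟩
    · intro z hz w hw
      exact ⟨e j, le_rfl, hz, hw⟩
  have hr : ∀ a ∈ X, ∃ i, e i = a := fun a ha => he ha
  have hne : Nonempty μ.ord.ToType := by
    rw [← Cardinal.mk_ne_zero_iff, Cardinal.mk_ord_toType]
    exact hreg.pos.ne'
  choose! r hr using hr
  obtain ⟨Y, hY1, hY2, hY3⟩ := greedy (I := PUnit.{u+1}) (fun _ => X) (fun _ _ _ => subset_rfl)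
    (Inc : Q → Q → Prop) (fun a b h => ⟨h.2, h.1⟩) (fun y => y ∈ X ∧ f (r y) = false)
  have hanti : IsAntichain (· ≤ ·) Y := fun a ha b hb hab => (hY2 a ha b hb hab).1
  have hYc : #Y < μ := hA Y hanti
  obtain ⟨α, hα⟩ := bounded_of_lt hreg (r '' Y) (Cardinal.mk_image_le.trans_lt hYc)
  have hsub : ∀ β, α ≤ β → {y | (∀ j < β, F y j = f j) ∧ ∀ j < β, ¬ y ≤ e j} ⊆ IncSet Y := by
    rintro β hβ z ⟨hz1, hz2⟩ y hy
    have hry : r y < β := (hα _ ⟨y, hy, rfl⟩).trans_le hβ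
    have hey : e (r y) = y := hr y (hY1 y hy).1
    refine ⟨?_, ?_⟩
    · have := hz2 _ hry
      rwa [hey] at this
    · have h1 := hz1 _ hry
      rw [(hY1 y hy).2] at h1
      have h2 : ¬ e (r y) ≤ z := by
        simpa [F] using h1
      rwa [hey] at h2
  have hnd : ¬ DirectedOn (· ≤ ·) (IncSet Y) := fun hd =>
    hpos α (Jmono _ _ (hsub α le_rfl) (Jdir _ hd))
  obtain ⟨a, haX, b, hbX, ha, hb, hab⟩ := hX2 Y (fun y hy => (hY1 y hy).1) hYc hnd
  have key : ∀ c ∈ X, c ∈ IncSet Y → f (r c) = true := by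
    intro c hcX hc
    by_contra hcx
    rw [Bool.not_eq_true] at hcx
    have hcA : c ∈ Y := hY3 PUnit.unit c hcX ⟨hcX, hcx⟩ (fun y hy => ⟨(hc y hy.1).2, (hc y hy.1).1⟩)
    exact (hc c hcA).1 le_rfl
  obtain ⟨β, hβ⟩ := bounded_of_lt hreg {α, r a, r b}
    (lt_of_lt_of_le ((Set.toFinite _).lt_aleph0) hinf)
  obtain ⟨z, hz⟩ : {y | (∀ j < β, F y j = f j) ∧ ∀ j < β, ¬ y ≤ e j}.Nonempty := by
    by_contra h
    rw [not_nonempty_iff_eq_empty] at h
    apply hpos β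
    rw [h]
    exact Jdir _ (fun x hx => absurd hx (by simp))
  have hle : ∀ c ∈ X, c ∈ IncSet Y → r c < β → c ≤ z := by
    intro c hcX hc hrc
    have h1 := hz.1 _ hrc
    rw [key c hcX hc] at h1
    have h2 : e (r c) ≤ z := by simpa [F] using h1
    rwa [hr c hcX] at h2
  exact hab z (hsub β (hβ α (by simp)).le hz)
    ⟨hle a haX ha (hβ _ (by simp)), hle b hbX hb (hβ _ (by simp))⟩

end

end Pool.Agent.Helper113.F
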