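import Pool.Agent.Helper113.FTable

set_option autoImplicit false

universe u

namespace Pool.Agent.Helper113.F

open Cardinal Set Pool.Agent.Helper113.G

theorem limitProp_aleph0 : LimitProp (ℵ₀ : Cardinal.{u}) := by
  classical
  intro F
  have hne : Nonempty (ℵ₀ : Cardinal.{u}).ord.ToType := by
    rw [← Cardinal.mk_ne_zero_iff, Cardinal.mk_ord_toType]
    exact aleph0_ne_zero
  let U : Ultrafilter (ℵ₀ : Cardinal.{u}).ord.ToType := Ultrafilter.of Filter.atTop
  have hU : (U : Filter (ℵ₀ : Cardinal.{u}).ord.ToType) ≤ Filter.atTop := Ultrafilter.of_le _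
  refine ⟨fun j => decide (∀ᶠ i in (U : Filter (ℵ₀ : Cardinal.{u}).ord.ToType), F i j = true), ?_⟩
  intro α
  have hfin : (Iio α).Finite := Cardinal.lt_aleph0_iff_set_finite.1 (mk_Iio_lt_of α)
  have h1 : ∀ j ∈ Iio α, ∀ᶠ i in (U : Filter (ℵ₀ : Cardinal.{u}).ord.ToType),
      F i j = decide (∀ᶠ i in (U : Filter (ℵ₀ : Cardinal.{u}).ord.ToType), F i j = true) := by
    intro j _
    by_cases h : ∀ᶠ i in (U : Filter (ℵ₀ : Cardinal.{u}).ord.ToType), F i j = true
    · rw [decide_eq_true h]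
      exact h
    · rw [decide_eq_false h]
      rw [← Ultrafilter.eventually_not] at h
      filter_upwards [h] with i hi
      simpa using hi
  have h2 := (Filter.eventually_all_finite hfin).2 h1
  have h3 : ∀ᶠ i in (U : Filter (ℵ₀ : Cardinal.{u}).ord.ToType), α ≤ i := hU (Filter.eventually_ge_atTop α)
  obtain ⟨i, hi1, hi2⟩ := (h2.and h3).exists
  exact ⟨i, hi2, hi1⟩

/-- the partition relation `μ → (μ)²₂` -/
def Arrow (μ : Cardinal.{u}) : Prop :=
  ∀ c : μ.ord.ToType → μ.ord.ToType → Prop, ∃ H : Set μ.ord.ToType, #H = μ ∧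
    ((∀ i ∈ H, ∀ j ∈ H, i < j → c i j) ∨ (∀ i ∈ H, ∀ j ∈ H, i < j → ¬ c i j))

/-- lexicographic order on binary sequences -/
def lexr {ι : Type u} [LinearOrder ι] (g h : ι → Bool) : Prop :=
  g = h ∨ ∃ δ, (∀ j < δ, g j = h j) ∧ g δ = false ∧ h δ = true

theorem lexr_total {ι : Type u} [LinearOrder ι] [WellFoundedLT ι] (g h : ι → Bool) :
    lexr g h ∨ lexr h g := by
  classical
  by_cases hgh : g = h
  · exact Or.inl (Or.inl hgh)
  · have hne : {j | g j ≠ h j}.Nonempty := by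
      by_contra hcon
      rw [not_nonempty_iff_eq_empty] at hcon
      apply hgh
      funext j
      by_contra hj
      have : j ∈ ({j | g j ≠ h j} : Set ι) := hj
      rw [hcon] at this
      exact this
    let δ := (wellFounded_lt : WellFounded ((· < ·) : ι → ι → Prop)).min _ hne
    have hδ : g δ ≠ h δ := WellFounded.min_mem _ _ hne
    have hlt : ∀ j < δ, g j = h j := by
      intro j hj
      by_contra hcon
      exact WellFounded.not_lt_min (wellFounded_lt : WellFounded ((· < ·) : ι → ι → Prop))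
        {j | g j ≠ h j} (x := j) hcon hj
    cases hg : g δ <;> cases hh : h δ
    · rw [hg, hh] at hδ; exact absurd rfl hδ
    · exact Or.inl (Or.inr ⟨δ, hlt, hg, hh⟩)
    · exact Or.inr (Or.inr ⟨δ, fun j hj => (hlt j hj).symm, hh, hg⟩)
    · rw [hg, hh] at hδ; exact absurd rfl hδ

theorem lexr_between {ι : Type u} [LinearOrder ι] {g g' g'' : ι → Bool} (h1 : lexr g g')
    (h2 : lexr g' g'') (α : ι) (h : ∀ j < α, g j = g'' j) : ∀ j < α, g' j = g j := by
  rcases h1 with rfl | ⟨δ, hδ1, hδ2, hδ3⟩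
  · exact fun j _ => rfl
  rcases h2 with rfl | ⟨ε, hε1, hε2, hε3⟩
  · exact fun j hj => (h j hj).symm
  intro j hj
  by_contra hcon
  have hδj : δ ≤ j := by
    by_contra hlt
    exact hcon (hδ1 j (not_le.1 hlt)).symm
  have hδα : δ < α := hδj.trans_lt hj
  rcases lt_trichotomy ε δ with hlt | heq | hgt
  · have a1 := h ε (hlt.trans hδα)
    have a2 := hδ1 ε hlt
    rw [hε3, a2, hε2] at a1
    exact absurd a1 (by simp)
  · subst heq
    rw [hδ3] at hε2
    exact absurd hε2 (by simp)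
  · have a1 := h δ hδα
    have a2 := hε1 δ hgt
    rw [hδ2, ← a2, hδ3] at a1
    exact absurd a1 (by simp)

theorem limitProp_of_arrow {μ : Cardinal.{u}} (hreg : μ.IsRegular) (hsl : μ.IsStrongLimit)
    (harr : Arrow μ) : LimitProp μ := by
  classical
  intro F
  have hinf : ℵ₀ ≤ μ := hreg.aleph0_le
  obtain ⟨H, hH, hhom⟩ := harr (fun i j => lexr (F i) (F j))
  have hbet : ∀ i ∈ H, ∀ i' ∈ H, ∀ i'' ∈ H, i < i' → i' < i'' → ∀ α : μ.ord.ToType,
      (∀ j < α, F i j = F i'' j) → ∀ j < α, F i' j = F i j := by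
    intro i hi i' hi' i'' hi'' h1 h2 α h
    rcases hhom with hc | hc
    · exact lexr_between (hc i hi i' hi' h1) (hc i' hi' i'' hi'' h2) α h
    · have e1 : lexr (F i') (F i) := (lexr_total _ _).resolve_right (hc i hi i' hi' h1)
      have e2 : lexr (F i'') (F i') := (lexr_total _ _).resolve_right (hc i' hi' i'' hi'' h2)
      have e3 := lexr_between e2 e1 α (fun j hj => (h j hj).symm)
      intro j hj
      rw [e3 j hj, h j hj]
  -- sets which are not small are unbounded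
  have hunb : ∀ s : Set μ.ord.ToType, ¬ #s < μ → ∀ k, ∃ i ∈ s, k ≤ i := by
    intro s hs k
    by_contra hcon
    push Not at hcon
    exact hs ((Cardinal.mk_le_mk_of_subset (fun i hi => hcon i hi)).trans_lt (mk_Iio_lt_of k))
  have hev : ∀ α : μ.ord.ToType, ∃ i0 ∈ H, ∀ i ∈ H, i0 < i → ∀ j < α, F i j = F i0 j := by
    intro α
    obtain ⟨v, hv⟩ : ∃ v : Iio α → Bool, ¬ #{i ∈ H | ∀ j : Iio α, F i j = v j} < μ := by
      by_contra hcon
      push Not at hcon
      have h1 : #(Iio α → Bool) < μ := by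
        have : #(Iio α → Bool) = 2 ^ #(Iio α) := by simp
        rw [this]
        exact hsl.isStrongPrelimit (mk_Iio_lt_of α)
      have h2 := (Cardinal.card_iUnion_lt_iff_forall_of_isRegular hreg h1
        (t := fun v : Iio α → Bool => {i ∈ H | ∀ j : Iio α, F i j = v j})).2 hcon
      have h3 : H ⊆ ⋃ v : Iio α → Bool, {i ∈ H | ∀ j : Iio α, F i j = v j} := by
        intro i hi
        exact mem_iUnion.2 ⟨fun j => F i j, hi, fun j => rfl⟩
      have h4 := (Cardinal.mk_le_mk_of_subset h3).trans_lt h2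
      rw [hH] at h4
      exact lt_irrefl _ h4
    have hne : Nonempty μ.ord.ToType := ⟨α⟩
    obtain ⟨i0, hi0, _⟩ := hunb _ hv α
    refine ⟨i0, hi0.1, ?_⟩
    intro i hi hlt
    obtain ⟨k, hk⟩ := bounded_of_lt hreg {i} (lt_of_lt_of_le ((Set.toFinite _).lt_aleph0) hinf)
    obtain ⟨i'', hi'', hki⟩ := hunb _ hv k
    refine hbet i0 hi0.1 i hi i'' hi''.1 hlt ((hk i rfl).trans_le hki) α ?_
    intro j hj
    rw [hi0.2 ⟨j, hj⟩, hi''.2 ⟨j, hj⟩]
  choose i0 hi0H hi0 using hev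
  have hs : ∀ j : μ.ord.ToType, ∃ k, j < k := by
    intro j
    obtain ⟨k, hk⟩ := bounded_of_lt hreg {j} (lt_of_lt_of_le ((Set.toFinite _).lt_aleph0) hinf)
    exact ⟨k, hk j rfl⟩
  choose s hs using hs
  have hHunb : ∀ k, ∃ i ∈ H, k ≤ i := hunb H (by rw [hH]; exact lt_irrefl _)
  refine ⟨fun j => F (i0 (s j)) j, ?_⟩
  intro α
  obtain ⟨k, hk⟩ := bounded_of_lt hreg {α, i0 α}
    (lt_of_lt_of_le ((Set.toFinite _).lt_aleph0) hinf)
  obtain ⟨i, hi, hki⟩ := hHunb k
  refine ⟨i, (hk α (by simp)).le.trans hki, ?_⟩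
  intro j hj
  obtain ⟨k', hk'⟩ := bounded_of_lt hreg {i0 α, i0 (s j)}
    (lt_of_lt_of_le ((Set.toFinite _).lt_aleph0) hinf)
  obtain ⟨i', hi', hki'⟩ := hHunb k'
  have e1 : F i j = F (i0 α) j := hi0 α i hi ((hk _ (by simp)).trans_le hki) j hj
  have e2 : F i' j = F (i0 α) j := hi0 α i' hi' ((hk' _ (by simp)).trans_le hki') j hj
  have e3 : F i' j = F (i0 (s j)) j := hi0 (s j) i' hi' ((hk' _ (by simp)).trans_le hki') j (hs j)
  rw [e1, ← e2, e3]

theorem pow_of_strongLimit {μ : Cardinal.{u}} (hreg : μ.IsRegular)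
    (hsl : IsStrongPrelimit μ) : ∀ c < μ, μ ^ c ≤ μ := by
  classical
  intro c hc
  have hinf : ℵ₀ ≤ μ := hreg.aleph0_le
  rcases eq_or_ne c 0 with rfl | hc0
  · rw [Cardinal.power_zero]
    exact one_lt_aleph0.le.trans hinf
  have hα : #(c.out × μ.out) = μ := by
    rw [Cardinal.mk_prod, Cardinal.mk_out, Cardinal.mk_out]
    simp only [Cardinal.lift_id]
    exact Cardinal.mul_eq_right hinf hc.le hc0
  have h1 := Cardinal.mk_subset_mk_lt_cof (α := c.out × μ.out) (by rw [hα]; exact hsl)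
  rw [hα, hreg.cof_ord] at h1
  have h2 : #(c.out → μ.out) ≤ #{s : Set (c.out × μ.out) // #s < μ} := by
    refine Cardinal.mk_le_of_injective (f := fun f => ⟨range (fun a => (a, f a)), ?_⟩) ?_
    · refine Cardinal.mk_range_le.trans_lt ?_
      rw [Cardinal.mk_out]
      exact hc
    · intro f g hfg
      have h3 : range (fun a => (a, f a)) = range (fun a => (a, g a)) := congrArg Subtype.val hfg
      funext a
      have h4 : (a, f a) ∈ range (fun a => (a, g a)) := h3 ▸ mem_range_self a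
      obtain ⟨b, hb⟩ := h4
      have h5 := congrArg Prod.fst hb
      have h6 := congrArg Prod.snd hb
      simp only at h5 h6
      rw [← h6, h5]
  rw [h1] at h2
  simpa using h2

theorem pow_of_gch {μ : Cardinal.{u}} (hreg : μ.IsRegular)
    (gch : ∀ κ : Cardinal.{u}, ℵ₀ ≤ κ → (2 : Cardinal.{u}) ^ κ = Order.succ κ) :
    ∀ c < μ, μ ^ c ≤ μ := by
  classical
  by_cases hsl : ∀ c < μ, (2 : Cardinal.{u}) ^ c < μ
  · exact pow_of_strongLimit hreg (fun c hc => hsl c hc)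
  push Not at hsl
  obtain ⟨c0, hc0, hle⟩ := hsl
  have hinf : ℵ₀ ≤ μ := hreg.aleph0_le
  have hc0inf : ℵ₀ ≤ c0 := by
    by_contra hlt
    rw [not_le] at hlt
    have h1 : (2 : Cardinal.{u}) ^ c0 < ℵ₀ :=
      Cardinal.power_lt_aleph0 (Cardinal.natCast_lt_aleph0 (n := 2)) hlt
    exact absurd (hle.trans_lt h1) (not_lt.2 hinf)
  have hμ : μ = 2 ^ c0 := by
    refine le_antisymm hle ?_
    rw [gch c0 hc0inf]
    exact Order.succ_le_of_lt hc0
  intro c hc
  have hcc0 : c ≤ c0 := by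
    rw [hμ, gch c0 hc0inf] at hc
    exact Order.lt_succ_iff.1 hc
  calc μ ^ c ≤ μ ^ c0 := Cardinal.power_le_power_left hreg.pos.ne' hcc0
    _ = 2 ^ c0 := by rw [hμ, ← Cardinal.power_mul, Cardinal.mul_eq_self hc0inf]
    _ = μ := hμ.symm

/-- There is a `μ`-Souslin tree. -/
def HasSouslinTree (μ : Cardinal.{u}) : Prop :=
  ∃ (T : Type u) (_ : PartialOrder T),
    (∀ t : T, IsChain (· ≤ ·) (Set.Iio t) ∧ (Set.Iio t).WellFoundedOn (· < ·)) ∧
    Cardinal.mk T = μ ∧
    (∀ C : Set T, IsChain (· ≤ ·) C → Cardinal.mk C < μ) ∧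
    (∀ A : Set T, IsAntichain (· ≤ ·) A → Cardinal.mk A < μ)

theorem souslin_lower {μ : Cardinal.{u}} (hreg : μ.IsRegular) {T : Type u} [PartialOrder T]
    (hT : ∀ t : T, IsChain (· ≤ ·) (Set.Iio t)) (hcard : #T = μ)
    (hchain : ∀ C : Set T, IsChain (· ≤ ·) C → #C < μ)
    (S : Set (Order.Ideal T)) (hcov : ∀ x : T, ∃ I ∈ S, x ∈ I) : μ ≤ #S := by
  classical
  by_contra hlt
  rw [not_le] at hlt
  have h1 : ∀ I : Order.Ideal T, #((I : Set T)) < μ := by
    intro I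
    apply hchain
    intro a ha b hb hab
    obtain ⟨c, _, hac, hbc⟩ := I.directed a ha b hb
    rcases eq_or_lt_of_le hac with rfl | hac'
    · exact Or.inr hbc
    · rcases eq_or_lt_of_le hbc with rfl | hbc'
      · exact Or.inl hac
      · exact hT c hac' hbc' hab
  have h2 := (Cardinal.card_iUnion_lt_iff_forall_of_isRegular hreg hlt
    (t := fun I : S => ((I.1 : Order.Ideal T) : Set T))).2 (fun I => h1 I.1)
  have h3 : (Set.univ : Set T) ⊆ ⋃ I : S, ((I.1 : Order.Ideal T) : Set T) := by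
    intro x _
    obtain ⟨I, hI, hxI⟩ := hcov x
    exact mem_iUnion.2 ⟨⟨I, hI⟩, hxI⟩
  have h4 := (Cardinal.mk_le_mk_of_subset h3).trans_lt h2
  rw [Cardinal.mk_univ, hcard] at h4
  exact lt_irrefl _ h4

theorem ideals_of_cov {P : Type u} [PartialOrder P] {μ : Cardinal.{u}}
    (h : ∃ 𝓘 : Set (Set P), #𝓘 < μ ∧ (∀ I ∈ 𝓘, DirectedOn (· ≤ ·) I) ∧
      (Set.univ : Set P) ⊆ ⋃₀ 𝓘) :
    ∃ S : Set (Order.Ideal P), #S < μ ∧ ∀ x : P, ∃ I ∈ S, x ∈ I := by
  obtain ⟨𝓘, h1, h2, h3⟩ := h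
  obtain ⟨S, hS1, hS2⟩ := ideals_of_covBy (P := P) (ν := #𝓘) ⟨𝓘, le_rfl, h2, h3⟩
  exact ⟨S, hS1.trans_lt h1, hS2⟩

end Pool.Agent.Helper113.F
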