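import Mathlib

set_option autoImplicit false

universe u

namespace Pool.Agent.Helper113.G

open Cardinal Set

/-- unions of few small sets are small -/
theorem small_iUnion {ι α : Type u} {c : Cardinal.{u}} (hc : ℵ₀ ≤ c) (hι : #ι ≤ c)
    (f : ι → Set α) (hf : ∀ i, #(f i) ≤ c) : #(⋃ i, f i) ≤ c := by
  refine (Cardinal.mk_iUnion_le f).trans ?_
  calc #ι * (⨆ i, #(f i)) ≤ c * c := mul_le_mul' hι (ciSup_le' hf)
    _ = c := Cardinal.mul_eq_self hc

theorem small_biUnion {ι α : Type u} {c : Cardinal.{u}} (hc : ℵ₀ ≤ c) (s : Set ι) (hs : #s ≤ c)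
    (f : ι → Set α) (hf : ∀ i ∈ s, #(f i) ≤ c) : #(⋃ i ∈ s, f i) ≤ c := by
  rw [biUnion_eq_iUnion]
  exact small_iUnion hc hs _ (fun i => hf i.1 i.2)

theorem small_union {α : Type u} {c : Cardinal.{u}} (hc : ℵ₀ ≤ c) {s t : Set α}
    (hs : #s ≤ c) (ht : #t ≤ c) : #(s ∪ t : Set α) ≤ c := by
  refine (Cardinal.mk_union_le s t).trans ?_
  calc #s + #t ≤ c + c := add_le_add hs ht
    _ = c := Cardinal.add_eq_self hc

theorem small_mono {α : Type u} {c : Cardinal.{u}} {s t : Set α} (h : s ⊆ t) (ht : #t ≤ c) :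
    #s ≤ c := (Cardinal.mk_le_mk_of_subset h).trans ht

theorem small_subsingleton {α : Type u} {c : Cardinal.{u}} (hc : ℵ₀ ≤ c) {s : Set α}
    (hs : s.Subsingleton) : #s ≤ c := by
  have : s.Finite := hs.finite
  exact (this.lt_aleph0).le.trans hc

theorem small_singleton {α : Type u} {c : Cardinal.{u}} (hc : ℵ₀ ≤ c) (a : α) :
    #({a} : Set α) ≤ c := small_subsingleton hc subsingleton_singleton

theorem small_finite {α : Type u} {c : Cardinal.{u}} (hc : ℵ₀ ≤ c) {s : Set α}
    (hs : s.Finite) : #s ≤ c := (hs.lt_aleph0).le.trans hc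

theorem not_small_diff {α : Type u} {c : Cardinal.{u}} (hc : ℵ₀ ≤ c) {s t : Set α}
    (hs : ¬ #s ≤ c) (ht : #t ≤ c) : ¬ #(s \ t : Set α) ≤ c := by
  intro h
  apply hs
  refine small_mono (t := (s \ t) ∪ t) ?_ (small_union hc h ht)
  intro x hx
  by_cases hxt : x ∈ t
  · exact Or.inr hxt
  · exact Or.inl ⟨hx, hxt⟩

theorem exists_of_not_small {α : Type u} {c : Cardinal.{u}} {s : Set α}
    (hs : ¬ #s ≤ c) : s.Nonempty := by
  by_contra h
  rw [Set.not_nonempty_iff_eq_empty] at h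
  apply hs
  rw [h]
  simp

/-- a set of size larger than `c` is not covered by few small sets. -/
theorem exists_not_mem_biUnion {ι α : Type u} {c : Cardinal.{u}} (hc : ℵ₀ ≤ c) (s : Set ι)
    (hs : #s ≤ c) (f : ι → Set α) (E : Set α) (hE : ¬ #E ≤ c)
    (hf : ∀ i ∈ s, #(E ∩ f i : Set α) ≤ c) : ∃ x ∈ E, ∀ i ∈ s, x ∉ f i := by
  by_contra h
  push Not at h
  apply hE
  refine small_mono (t := ⋃ i ∈ s, E ∩ f i) ?_ (small_biUnion hc s hs _ hf)
  intro x hx
  obtain ⟨i, hi, hxi⟩ := h x hx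
  simp only [mem_iUnion]
  exact ⟨i, hi, hx, hxi⟩

/-- Recursive choice along a well-founded relation. -/
theorem rec_choice {ι β : Type*} [Nonempty β] {r : ι → ι → Prop} (wf : WellFounded r)
    (P : ι → (ι → β) → β → Prop)
    (hloc : ∀ i f g b, (∀ j, r j i → f j = g j) → P i f b → P i g b)
    (hstep : ∀ i f, (∀ j, r j i → P j f (f j)) → ∃ b, P i f b) :
    ∃ f : ι → β, ∀ i, P i f (f i) := by
  classical
  let d : β := Classical.arbitrary β
  let F : ι → β := wf.fix (fun i prev =>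
    if h : ∃ b, P i (fun j => if hj : r j i then prev j hj else d) b then h.choose else d)
  have hF : ∀ i, F i =
      if h : ∃ b, P i (fun j => if r j i then F j else d) b then h.choose else d := by
    intro i
    have := wf.fix_eq (C := fun _ => β) (fun i prev =>
      if h : ∃ b, P i (fun j => if hj : r j i then prev j hj else d) b then h.choose else d) i
    simp only [dite_eq_ite] at this
    exact this
  refine ⟨F, ?_⟩
  intro i
  induction i using wf.induction with
  | _ i ih =>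
    have h1 : ∃ b, P i F b := hstep i F ih
    have h2 : ∃ b, P i (fun j => if r j i then F j else d) b := by
      obtain ⟨b, hb⟩ := h1
      exact ⟨b, hloc i F _ b (fun j hj => by simp [hj]) hb⟩
    rw [hF i, dif_pos h2]
    have h3 := h2.choose_spec
    exact hloc i _ F _ (fun j hj => by simp [hj]) h3

/-- a scale of cardinals below a singular cardinal -/
structure Scale (lam : Cardinal.{u}) {I : Type u} [LinearOrder I] (mu : I → Cardinal.{u}) :
    Prop where
  inf : ∀ i, ℵ₀ ≤ mu i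
  lt : ∀ i, mu i < lam
  cardI : ∀ i, #I ≤ mu i
  succ_le : ∀ i j, i < j → Order.succ (mu i) ≤ mu j
  gap : ∀ i, ∃ c, c < mu i ∧ ℵ₀ ≤ c ∧ #I ≤ c ∧ ∀ j < i, mu j ≤ c
  cofinal : ∀ c < lam, ∃ i, c < mu i
  seg : ∀ i : I, #(Iio i) < #I

theorem Scale.mono {lam : Cardinal.{u}} {I : Type u} [LinearOrder I] {mu : I → Cardinal.{u}}
    (h : Scale lam mu) {i j : I} (hij : i ≤ j) : mu i ≤ mu j := by
  rcases eq_or_lt_of_le hij with h1 | h1
  · rw [h1]
  · exact (Order.le_succ _).trans (h.succ_le i j h1)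

theorem Scale.inf_lam {lam : Cardinal.{u}} {I : Type u} [LinearOrder I] [Nonempty I]
    {mu : I → Cardinal.{u}}
    (h : Scale lam mu) : ℵ₀ ≤ lam := (h.inf (Classical.arbitrary I)).trans (h.lt _).le

theorem Scale.cardI_lam {lam : Cardinal.{u}} {I : Type u} [LinearOrder I] [Nonempty I]
    {mu : I → Cardinal.{u}}
    (h : Scale lam mu) : #I ≤ lam := (h.cardI (Classical.arbitrary I)).trans (h.lt _).le

theorem exists_scale (lam : Cardinal.{u}) (hlam : lam.IsSingular) :
    ∃ mu : (lam.ord.cof).ord.ToType → Cardinal.{u}, Scale lam mu := by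
  classical
  set I := (lam.ord.cof).ord.ToType with hIdef
  have hI : #I = lam.ord.cof := Cardinal.mk_ord_toType _
  have hlim : Order.IsSuccLimit lam.ord := Cardinal.isSuccLimit_ord hlam.aleph0_le
  have hcofinf : ℵ₀ ≤ lam.ord.cof := by
    rw [Ordinal.aleph0_le_cof_iff, Ordinal.one_lt_cof_iff]
    exact hlim
  have hseg : ∀ i : I, #(Iio i) < #I := by
    intro i
    exact Cardinal.mk_Iio_lt i (by rw [hI]; simp [I])
  -- a cofinal family of cardinals
  obtain ⟨f, hf1, hf2⟩ : ∃ f : I → Cardinal.{u}, (∀ i, f i < lam) ∧ ∀ c < lam, ∃ i, c ≤ f i := by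
    obtain ⟨S, hS, hScard⟩ := Order.exists_cof_eq (α := lam.ord.ToType)
    rw [Ordinal.cof_toType] at hScard
    have e : I ≃ S := by
      apply Classical.choice
      rw [← Cardinal.eq, hI, hScard]
    refine ⟨fun i => (Ordinal.ToType.mk.symm (e i).1).1.card, ?_, ?_⟩
    · intro i
      have h : (Ordinal.ToType.mk.symm (e i).1).1 < lam.ord :=
        (Ordinal.ToType.mk.symm (e i).1).2
      exact Cardinal.lt_ord.1 h
    · intro c hc
      have h1 : c.ord < lam.ord := Cardinal.ord_lt_ord.2 hc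
      obtain ⟨y, hyS, hxy⟩ := hS (Ordinal.ToType.mk ⟨c.ord, h1⟩)
      refine ⟨e.symm ⟨y, hyS⟩, ?_⟩
      beta_reduce
      rw [e.apply_symm_apply]
      have h2 : (⟨c.ord, h1⟩ : Iio lam.ord) ≤ Ordinal.ToType.mk.symm y := by
        rw [← Ordinal.ToType.mk.le_iff_le, Ordinal.ToType.mk.apply_symm_apply]
        exact hxy
      have h3 : c.ord ≤ (Ordinal.ToType.mk.symm y).1 := h2
      have h4 := Ordinal.card_le_card h3
      rwa [Cardinal.card_ord] at h4
  obtain ⟨mu, hmu⟩ := rec_choice (ι := I) (β := Cardinal.{u}) (r := (· < ·)) wellFounded_lt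
    (fun i g b => (∀ j < i, g j < lam) → (b < lam ∧ ∃ c, c < b ∧ ℵ₀ ≤ c ∧ #I ≤ c ∧ f i ≤ c ∧
      ∀ j < i, g j ≤ c))
    (by
      intro i g g' b hgg h h'
      obtain ⟨h1, c, h2, h3, h4, h5, h6⟩ := h (fun j hj => by rw [hgg j hj]; exact h' j hj)
      exact ⟨h1, c, h2, h3, h4, h5, fun j hj => by rw [← hgg j hj]; exact h6 j hj⟩)
    (by
      intro i g _
      by_cases hg : ∀ j < i, g j < lam
      · let s : Cardinal.{u} := ⨆ j : Iio i, g j.1
        have hs : s < lam := by
          apply Cardinal.iSup_lt_of_lt_cof_ord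
          · exact (hseg i).trans_eq hI
          · intro j
            exact hg j.1 j.2
        have hcof : lam.ord.cof < lam := hlam.cof_ord_lt
        let c : Cardinal.{u} := max (#I) (max (f i) s)
        have hc : c < lam := by
          apply max_lt
          · rw [hI]; exact hcof
          · exact max_lt (hf1 i) hs
        refine ⟨Order.succ c, fun _ => ⟨?_, c, Order.lt_succ c, ?_, le_max_left _ _,
          (le_max_left _ _).trans (le_max_right _ _), ?_⟩⟩
        · exact hlam.isSuccLimit.succ_lt hc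
        · exact (hI ▸ hcofinf : ℵ₀ ≤ #I).trans (le_max_left _ _)
        · intro j hj
          refine le_trans ?_ ((le_max_right _ _).trans (le_max_right _ _))
          exact le_ciSup (f := fun j : Iio i => g j.1) Cardinal.bddAbove_of_small ⟨j, hj⟩
      · exact ⟨0, fun h => absurd h hg⟩)
  have hlt : ∀ i, mu i < lam := by
    intro i
    induction i using WellFoundedLT.induction with
    | _ i ih => exact (hmu i ih).1
  have hmu' : ∀ i, ∃ c, c < mu i ∧ ℵ₀ ≤ c ∧ #I ≤ c ∧ f i ≤ c ∧ ∀ j < i, mu j ≤ c :=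
    fun i => (hmu i (fun j _ => hlt j)).2
  refine ⟨mu, ?_, hlt, ?_, ?_, ?_, ?_, hseg⟩
  · intro i
    obtain ⟨c, h1, h2, _⟩ := hmu' i
    exact h2.trans h1.le
  · intro i
    obtain ⟨c, h1, h2, h3, _⟩ := hmu' i
    exact h3.trans h1.le
  · intro i j hij
    obtain ⟨c, h1, h2, h3, h4, h5⟩ := hmu' j
    exact Order.succ_le_of_lt ((h5 i hij).trans_lt h1)
  · intro i
    obtain ⟨c, h1, h2, h3, h4, h5⟩ := hmu' i
    exact ⟨c, h1, h2, h3, h5⟩
  · intro c hc
    obtain ⟨i, hi⟩ := hf2 c hc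
    obtain ⟨c', h1, h2, h3, h4, h5⟩ := hmu' i
    exact ⟨i, (hi.trans h4).trans_lt h1⟩

end Pool.Agent.Helper113.G
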