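import Pool.Agent.Helper113.GGraph

set_option autoImplicit false

universe u

namespace Pool.Agent.Helper113.G

open Cardinal Set

/-- The main combinatorial theorem: for a singular strong limit cardinal `lam` with
`2 ^ lam = lam ^ +` and a well-order `K` of type `lam ^ +`. -/
theorem core {lam : Cardinal.{u}} (hsing : lam.IsSingular)
    (hsl : ∀ c < lam, (2 : Cardinal.{u}) ^ c ≤ lam)
    (h2 : (2 : Cardinal.{u}) ^ lam = Order.succ lam)
    {K : Type u} [LinearOrder K] [WellFoundedLT K] (hK : #K = Order.succ lam)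
    (hI : ∀ a : K, #(Iio a) ≤ lam) :
    ∃ N : K → Set K, (∀ α, N α ⊆ Iio α) ∧
      (∀ A : Set K, (∀ γ, ∃ α ∈ A, γ < α) → ∃ b, ∀ α, b < α → ∃ x ∈ A, x ∈ N α) ∧
      (∀ α β : K, β < α → #(N α ∩ N β : Set K) < lam) ∧
      (∀ (α β : K) (C : Set K), β < α → C ⊆ N α → C ⊆ N β →
        (∀ x ∈ C, ∀ y ∈ C, x < y → x ∈ N y) → #C < lam.ord.cof) := by
  classical
  have hinf := hsing.aleph0_le
  have hKne : Nonempty K := by
    rw [← Cardinal.mk_ne_zero_iff, hK]
    exact (Cardinal.succ_pos lam).ne'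
  have hcof0 : lam.ord.cof ≠ 0 := by
    rw [Ne, Ordinal.cof_eq_zero]
    intro h0
    exact hsing.pos.ne' (by simpa using h0)
  obtain ⟨mu, hS⟩ := exists_scale lam hsing
  have hcI : #(lam.ord.cof).ord.ToType = lam.ord.cof := Cardinal.mk_ord_toType _
  have hIne : Nonempty (lam.ord.cof).ord.ToType := by
    rw [← Cardinal.mk_ne_zero_iff, hcI]
    exact hcof0
  obtain ⟨D, E, hE⟩ := main_setup hS hK hI hsl h2
  obtain ⟨X, hX⟩ := exists_graph hS D E
  have hinter : ∀ α β : K, β < α → ∃ n, ∀ x, x ∈ Nb X α → x ∈ Nb X β → ∃ m < n, x ∈ X α m := by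
    intro α β hβα
    obtain ⟨n, hn⟩ := D.union α β hβα
    refine ⟨n, ?_⟩
    intro x hxα hxβ
    obtain ⟨m, hm⟩ := mem_iUnion.1 hxα
    refine ⟨m, ?_, hm⟩
    by_contra hnot
    have h2 : β ∈ D.D m α := D.mono n m α (not_lt.1 hnot) hn
    exact (hX α).disj m β h2 x hm hxβ
  refine ⟨Nb X, fun α => nb_sub (hX α), ?_, ?_, ?_⟩
  · intro A hA
    obtain ⟨n0, hn0⟩ := cat_of_unbounded hS hK hI D A hA
    have h1 : ∀ n, ∃ δ, n0 ≤ n → E n δ ⊆ A ∧ Good D n δ (E n δ) := by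
      intro n
      by_cases hn : n0 ≤ n
      · obtain ⟨δ, hδ⟩ := hE n A (hn0 n hn)
        exact ⟨δ, fun _ => hδ⟩
      · exact ⟨Classical.arbitrary K, fun h => absurd h hn⟩
    choose δ hδ using h1
    obtain ⟨i, hi⟩ := D.capture (fun n => {δ n}) (fun n => small_singleton (hS.inf n) _)
    obtain ⟨b, hb⟩ := strict_bound hinf hK hI ({i} ∪ range δ) (by
      refine small_union hinf (small_singleton hinf _) ?_
      exact Cardinal.mk_range_le.trans hS.cardI_lam)
    refine ⟨b, ?_⟩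
    intro α hbα
    obtain ⟨n1, hn1⟩ := hi α ((hb i (Or.inl rfl)).trans hbα)
    obtain ⟨hsub, hgood⟩ := hδ (max n0 n1) (le_max_left _ _)
    have hmem : δ (max n0 n1) ∈ D.D (max n0 n1) α := hn1 _ (le_max_right _ _)
      ⟨rfl, (hb _ (Or.inr ⟨_, rfl⟩)).trans hbα⟩
    obtain ⟨x, hxX, hxE⟩ := (hX α).hit _ _ hmem hgood
    exact ⟨x, hsub hxE, mem_iUnion.2 ⟨_, hxX⟩⟩
  · intro α β hβα
    obtain ⟨n, hn⟩ := hinter α β hβα
    refine lt_of_le_of_lt (small_mono (t := ⋃ m ∈ Iio n, X α m) ?_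
      (small_biUnion (hS.inf n) (Iio n) ((Cardinal.mk_set_le _).trans (hS.cardI n)) _
        (fun m hm => ((hX α).card m).trans (hS.mono (le_of_lt hm))))) (hS.lt n)
    rintro x ⟨hxα, hxβ⟩
    obtain ⟨m, hm1, hm2⟩ := hn x hxα hxβ
    simp only [mem_iUnion]
    exact ⟨m, hm1, hm2⟩
  · intro α β C hβα hCα hCβ hclique
    obtain ⟨n, hn⟩ := hinter α β hβα
    have h1 : ∀ x : C, ∃ m : Iio n, x.1 ∈ X α m.1 := by
      intro x
      obtain ⟨m, hm1, hm2⟩ := hn x.1 (hCα x.2) (hCβ x.2)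
      exact ⟨⟨m, hm1⟩, hm2⟩
    choose m hm using h1
    have hinj : Function.Injective m := by
      have key : ∀ x y : C, x.1 < y.1 → m x ≠ m y := by
        intro x y hxy heq
        have h3 := hm x
        rw [heq] at h3
        exact (hX α).indep _ x.1 h3 y.1 (hm y) (hclique x.1 x.2 y.1 y.2 hxy)
      intro x y heq
      rcases lt_trichotomy x.1 y.1 with h | h | h
      · exact absurd heq (key x y h)
      · exact Subtype.ext h
      · exact absurd heq.symm (key y x h)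
    calc #C ≤ #(Iio n) := Cardinal.mk_le_of_injective hinj
      _ < #(lam.ord.cof).ord.ToType := hS.seg n
      _ = lam.ord.cof := hcI

/-- GCH gives the hypotheses of `core` at every singular cardinal. -/
theorem hyps_of_gch (hG : ∀ κ : Cardinal.{u}, ℵ₀ ≤ κ → (2 : Cardinal.{u}) ^ κ = Order.succ κ)
    {lam : Cardinal.{u}} (hsing : lam.IsSingular) :
    (∀ c < lam, (2 : Cardinal.{u}) ^ c ≤ lam) ∧ (2 : Cardinal.{u}) ^ lam = Order.succ lam := by
  refine ⟨?_, hG lam hsing.aleph0_le⟩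
  intro c hc
  rcases lt_or_ge c ℵ₀ with h | h
  · obtain ⟨n, rfl⟩ := Cardinal.lt_aleph0.1 h
    refine le_trans ?_ hsing.aleph0_le
    have : (2 : Cardinal.{u}) ^ (n : Cardinal.{u}) < ℵ₀ :=
      Cardinal.power_lt_aleph0 (Cardinal.natCast_lt_aleph0 (n := 2)) Cardinal.natCast_lt_aleph0
    exact this.le
  · rw [hG c h]
    exact Order.succ_le_of_lt hc

theorem mk_Iio_toType_le (lam : Cardinal.{u}) (a : (Order.succ lam).ord.ToType) :
    #(Iio a) ≤ lam := by
  have h := Cardinal.mk_Iio_lt a (by rw [Cardinal.mk_ord_toType]; simp)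
  rw [Cardinal.mk_ord_toType] at h
  exact Order.lt_succ_iff.1 h

end Pool.Agent.Helper113.G
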