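import Pool.Agent.Helper113.GComb

set_option autoImplicit false
set_option linter.unusedSectionVars false

universe u

namespace Pool.Agent.Helper113.G

open Cardinal Set

section
variable {lam : Cardinal.{u}} {I : Type u} [LinearOrder I] [WellFoundedLT I] [Nonempty I]

/-- a set of cardinality `lam` with a filtration -/
def L (mu : I → Cardinal.{u}) : Type u := Σ n : I, (mu n).out

/-- the levels of the filtration -/
def Lv (mu : I → Cardinal.{u}) (i : I) : Set (L mu) := {x | x.1 ≤ i}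

variable {mu : I → Cardinal.{u}}

omit [WellFoundedLT I] [Nonempty I] in
theorem mk_Lv (hS : Scale lam mu) (i : I) : #(Lv mu i) ≤ mu i := by
  have h : Lv mu i ⊆ ⋃ n : I, {x : L mu | x.1 = n ∧ n ≤ i} := by
    intro x hx
    exact mem_iUnion.2 ⟨x.1, rfl, hx⟩
  refine small_mono h (small_iUnion (hS.inf i) (hS.cardI i) _ ?_)
  intro n
  by_cases hn : n ≤ i
  · have h2 : {x : L mu | x.1 = n ∧ n ≤ i} ⊆ range (fun y : (mu n).out => (⟨n, y⟩ : L mu)) := by
      rintro ⟨k, y⟩ ⟨h1, _⟩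
      simp only at h1
      subst h1
      exact ⟨y, rfl⟩
    refine small_mono h2 ?_
    refine Cardinal.mk_range_le.trans ?_
    rw [Cardinal.mk_out]
    exact hS.mono hn
  · have : {x : L mu | x.1 = n ∧ n ≤ i} = ∅ := by
      ext x
      simp [hn]
    rw [this]
    simp

omit [WellFoundedLT I] [Nonempty I] in
theorem lam_le_mk_L (hS : Scale lam mu) : lam ≤ #(L mu) := by
  by_contra hcon
  obtain ⟨n, hn⟩ := hS.cofinal _ (not_le.1 hcon)
  have : Function.Injective (fun y : (mu n).out => (⟨n, y⟩ : L mu)) := by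
    intro x y h
    simpa using (Sigma.mk.inj h).2
  have h2 : mu n ≤ #(L mu) := by
    calc mu n = #((mu n).out) := (Cardinal.mk_out _).symm
      _ ≤ #(L mu) := Cardinal.mk_le_of_injective this
  exact absurd hn (not_lt.2 h2)

/-- index type for the simultaneous guessing -/
def Xi (mu : I → Cardinal.{u}) : Type u := Σ i : I, Set (Lv mu i)

omit [WellFoundedLT I] in
theorem mk_Xi (hS : Scale lam mu) (hsl : ∀ c < lam, (2 : Cardinal.{u}) ^ c ≤ lam) :
    #(Xi mu) ≤ lam := by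
  unfold Xi
  rw [Cardinal.mk_sigma]
  have h : ∀ i : I, #(Set (Lv mu i)) ≤ lam := by
    intro i
    rw [Cardinal.mk_set]
    calc (2 : Cardinal.{u}) ^ #(Lv mu i) ≤ 2 ^ mu i :=
          Cardinal.power_le_power_left two_ne_zero (mk_Lv hS i)
      _ ≤ lam := hsl _ (hS.lt i)
  calc Cardinal.sum (fun i : I => #(Set (Lv mu i))) ≤ Cardinal.sum (fun _ : I => lam) :=
        Cardinal.sum_le_sum _ _ h
    _ = #I * lam := by simp
    _ ≤ lam * lam := mul_le_mul' hS.cardI_lam le_rfl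
    _ = lam := Cardinal.mul_eq_self hS.inf_lam

end

theorem exists_enum {lam : Cardinal.{u}} (hinf : ℵ₀ ≤ lam) (K X : Type u)
    (h2 : (2 : Cardinal.{u}) ^ lam = Order.succ lam)
    (hK : #K = Order.succ lam) (hX : #X ≤ lam) :
    ∃ (a : K → X → Set K) (idx : (X → Set K) → K),
      ∀ F : X → Set K, (∀ ξ, #(F ξ) ≤ lam) → a (idx F) = F := by
  classical
  have hK2 : #K ^ lam = #K := by
    rw [hK, ← h2, ← Cardinal.power_mul, Cardinal.mul_eq_self hinf]
  have hK0 : #K ≠ 0 := by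
    rw [hK]
    exact (Cardinal.succ_pos lam).ne'
  have hKinf : ℵ₀ ≤ #K := by
    rw [hK]
    exact hinf.trans (Order.le_succ _)
  have h1 : #{s : Set K // #s ≤ lam} ≤ #K := by
    refine (Cardinal.mk_bounded_set_le K lam).trans ?_
    rw [max_eq_left hKinf, hK2]
  have h3 : #(X → {s : Set K // #s ≤ lam}) ≤ #K := by
    rw [← Cardinal.power_def]
    calc #{s : Set K // #s ≤ lam} ^ #X ≤ #K ^ #X := Cardinal.power_le_power_right h1
      _ ≤ #K ^ lam := Cardinal.power_le_power_left hK0 hX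
      _ = #K := hK2
  obtain ⟨φ⟩ := h3
  have hne : Nonempty K := by
    rw [← Cardinal.mk_ne_zero_iff]
    exact hK0
  let a : K → X → Set K := fun i => if h : ∃ F, φ F = i then fun ξ => (h.choose ξ).1 else fun _ => ∅
  let idx : (X → Set K) → K := fun F =>
    if h : ∀ ξ, #(F ξ) ≤ lam then φ (fun ξ => ⟨F ξ, h ξ⟩) else Classical.arbitrary K
  refine ⟨a, idx, ?_⟩
  intro F hF
  have hidx : idx F = φ (fun ξ => ⟨F ξ, hF ξ⟩) := dif_pos hF
  have h3 : ∃ F', φ F' = φ (fun ξ => ⟨F ξ, hF ξ⟩) := ⟨_, rfl⟩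
  have ha : a (φ (fun ξ => ⟨F ξ, hF ξ⟩)) = fun ξ => (h3.choose ξ).1 := dif_pos h3
  rw [hidx, ha]
  have h4 := φ.injective h3.choose_spec
  funext ξ
  exact congrArg Subtype.val (congrFun h4 ξ)

section
variable {K : Type u} [LinearOrder K]

theorem strict_bound {lam : Cardinal.{u}} (hinf : ℵ₀ ≤ lam) (hK : #K = Order.succ lam)
    (hI : ∀ a : K, #(Iio a) ≤ lam)
    (s : Set K) (hs : #s ≤ lam) : ∃ b, ∀ x ∈ s, x < b := by
  by_contra h
  push Not at h
  have h1 : (univ : Set K) ⊆ ⋃ x ∈ s, Iic x := by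
    intro b _
    obtain ⟨x, hx, hbx⟩ := h b
    simp only [mem_iUnion]
    exact ⟨x, hx, hbx⟩
  have h2 : #(univ : Set K) ≤ lam := by
    refine small_mono h1 (small_biUnion hinf s hs _ ?_)
    intro x _
    refine small_mono (t := Iio x ∪ {x}) ?_ (small_union hinf (hI x) ?_)
    · intro y hy
      rcases lt_or_eq_of_le (show y ≤ x from hy) with h | h
      · exact Or.inl h
      · exact Or.inr h
    · exact small_singleton hinf x
  rw [Cardinal.mk_univ, hK] at h2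
  exact absurd h2 (not_le.2 (Order.lt_succ _))

theorem unbounded_of_big {lam : Cardinal.{u}} (hinf : ℵ₀ ≤ lam)
    (hI : ∀ a : K, #(Iio a) ≤ lam) (s : Set K) (hs : ¬ #s ≤ lam) : ∀ γ, ∃ α ∈ s, γ < α := by
  intro γ
  by_contra h
  push Not at h
  apply hs
  refine small_mono (t := Iio γ ∪ {γ}) ?_ (small_union hinf (hI γ) (small_singleton hinf γ))
  intro y hy
  rcases lt_or_eq_of_le (h y hy) with h | h
  · exact Or.inl h
  · exact Or.inr h

variable {I : Type u} [LinearOrder I] [WellFoundedLT I] [Nonempty I]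

/-- The filtrations `D n α` of the initial segments. -/
structure DSys (mu : I → Cardinal.{u}) (K : Type u) [LinearOrder K] where
  D : I → K → Set K
  sub : ∀ n α, D n α ⊆ Iio α
  mono : ∀ m n α, m ≤ n → D m α ⊆ D n α
  union : ∀ α β, β < α → ∃ n, β ∈ D n α
  card : ∀ n α, #(D n α) ≤ mu n
  capture : ∀ f : I → Set K, (∀ n, #(f n) ≤ mu n) →
    ∃ i : K, ∀ α, i < α → ∃ n0, ∀ n, n0 ≤ n → f n ∩ Iio α ⊆ D n α

variable {mu : I → Cardinal.{u}} {lam : Cardinal.{u}}

/-- The sets caught by level `n`. -/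
def Cat (D : DSys mu K) (n : I) (A : Set K) : Prop :=
  ∀ E : Set K, #E ≤ mu n → ∀ γ : K, ∃ α ∈ A, γ < α ∧ E ⊆ D.D n α

/-- Good ladders -/
structure Good (D : DSys mu K) (n : I) (δ : K) (E : Set K) : Prop where
  sub : E ⊆ Iio δ
  card_le : #E ≤ Order.succ (mu n)
  not_small : ¬ #E ≤ mu n
  init : ∀ b ∈ E, E ∩ Iio b ⊆ D.D n b
  cof : ∀ γ < δ, ∃ b ∈ E, γ < b

theorem cat_of_unbounded (hS : Scale lam mu) (hK : #K = Order.succ lam)
    (hI : ∀ a : K, #(Iio a) ≤ lam)
    (D : DSys mu K) (A : Set K) (hA : ∀ γ, ∃ α ∈ A, γ < α) :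
    ∃ n0, ∀ n, n0 ≤ n → Cat D n A := by
  classical
  have hinf := hS.inf_lam
  by_contra hcon
  push Not at hcon
  have h1 : ∀ n, ∃ E : Set K, #E ≤ mu n ∧ (¬ Cat D n A → ∃ γ, ∀ α ∈ A, γ < α → ¬ E ⊆ D.D n α) := by
    intro n
    by_cases h : Cat D n A
    · exact ⟨∅, by simp, fun h' => absurd h h'⟩
    · have h' := h
      unfold Cat at h'
      push Not at h'
      obtain ⟨E, hE, γ, hγ⟩ := h'
      exact ⟨E, hE, fun _ => ⟨γ, hγ⟩⟩
  choose E hE1 hE2 using h1
  obtain ⟨i, hi⟩ := D.capture E hE1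
  have hγ : ∀ n, ∃ γ, ¬ Cat D n A → ∀ α ∈ A, γ < α → ¬ E n ⊆ D.D n α := by
    intro n
    by_cases h : Cat D n A
    · exact ⟨i, fun h' => absurd h h'⟩
    · obtain ⟨γ, hγ⟩ := hE2 n h
      exact ⟨γ, fun _ => hγ⟩
  choose γ hγ using hγ
  obtain ⟨b, hb⟩ := strict_bound hinf hK hI ({i} ∪ range γ ∪ ⋃ n, E n) (by
    refine small_union hinf (small_union hinf ?_ ?_) ?_
    · exact small_singleton hinf _
    · exact Cardinal.mk_range_le.trans hS.cardI_lam
    · exact small_iUnion hinf hS.cardI_lam _ (fun n => (hE1 n).trans (hS.lt n).le))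
  obtain ⟨α, hαA, hbα⟩ := hA b
  have hiα : i < α := (hb i (Or.inl (Or.inl rfl))).trans hbα
  obtain ⟨n0, hn0⟩ := hi α hiα
  obtain ⟨n, hn, hncat⟩ := hcon n0
  refine hγ n hncat α hαA ((hb _ (Or.inl (Or.inr ⟨n, rfl⟩))).trans hbα) ?_
  intro x hx
  refine hn0 n hn ⟨hx, ?_⟩
  exact (hb x (Or.inr (mem_iUnion.2 ⟨n, hx⟩))).trans hbα

end

end Pool.Agent.Helper113.G
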