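import Pool.Agent.Helper113.Comb

set_option autoImplicit false

namespace Pool.Agent.Helper113

open Cardinal Set

/-- a set of cardinality `aleph_omega` with a filtration -/
def L : Type := Σ n : ℕ, (al n).out

/-- the levels of the filtration -/
def Lv (i : ℕ) : Set L := {x | x.1 ≤ i}

theorem mk_Lv (i : ℕ) : #(Lv i) ≤ al i := by
  have h : Lv i ⊆ ⋃ n : ℕ, {x : L | x.1 = n ∧ n ≤ i} := by
    intro x hx
    exact mem_iUnion.2 ⟨x.1, rfl, hx⟩
  refine small_mono h (small_iUnion_nat (aleph0_le_al i) _ ?_)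
  intro n
  by_cases hn : n ≤ i
  · have h2 : {x : L | x.1 = n ∧ n ≤ i} ⊆ range (fun y : (al n).out => (⟨n, y⟩ : L)) := by
      rintro ⟨k, y⟩ ⟨h1, _⟩
      simp only at h1
      subst h1
      exact ⟨y, rfl⟩
    refine small_mono h2 ?_
    refine Cardinal.mk_range_le.trans ?_
    rw [Cardinal.mk_out]
    exact al_mono hn
  · have : {x : L | x.1 = n ∧ n ≤ i} = ∅ := by
      ext x
      simp [hn]
    rw [this]
    simp

theorem lam_le_mk_L : lam ≤ #L := by
  apply lam_le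
  intro n
  have : Function.Injective (fun y : (al n).out => (⟨n, y⟩ : L)) := by
    intro x y h
    simpa using (Sigma.mk.inj h).2
  calc al n = #((al n).out) := (Cardinal.mk_out _).symm
    _ ≤ #L := Cardinal.mk_le_of_injective this

/-- index type for the simultaneous guessing -/
def Xi : Type := Σ i : ℕ, Set (Lv i)

theorem mk_Xi (hG : ∀ κ : Cardinal.{0}, ℵ₀ ≤ κ → (2 : Cardinal.{0}) ^ κ = Order.succ κ) :
    #Xi ≤ lam := by
  unfold Xi
  rw [Cardinal.mk_sigma]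
  have h : ∀ i : ℕ, #(Set (Lv i)) ≤ lam := by
    intro i
    rw [Cardinal.mk_set]
    calc (2 : Cardinal.{0}) ^ #(Lv i) ≤ 2 ^ al i :=
          Cardinal.power_le_power_left two_ne_zero (mk_Lv i)
      _ = Order.succ (al i) := hG _ (aleph0_le_al i)
      _ = al (i + 1) := (al_succ i).symm
      _ ≤ lam := al_le_lam _
  calc Cardinal.sum (fun i : ℕ => #(Set (Lv i))) ≤ Cardinal.sum (fun _ : ℕ => lam) :=
        Cardinal.sum_le_sum _ _ h
    _ = ℵ₀ * lam := by simp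
    _ ≤ lam * lam := mul_le_mul' aleph0_le_lam le_rfl
    _ = lam := Cardinal.mul_eq_self aleph0_le_lam

theorem exists_enum (K X : Type)
    (hG : ∀ κ : Cardinal.{0}, ℵ₀ ≤ κ → (2 : Cardinal.{0}) ^ κ = Order.succ κ)
    (hK : #K = Order.succ lam) (hX : #X ≤ lam) :
    ∃ (a : K → X → Set K) (idx : (X → Set K) → K),
      ∀ F : X → Set K, (∀ ξ, #(F ξ) ≤ lam) → a (idx F) = F := by
  classical
  have hK2 : #K ^ lam = #K := by
    rw [hK, ← hG lam aleph0_le_lam, ← Cardinal.power_mul, Cardinal.mul_eq_self aleph0_le_lam]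
  have hK0 : #K ≠ 0 := by
    rw [hK]
    exact (Cardinal.succ_pos lam).ne'
  have hKinf : ℵ₀ ≤ #K := by
    rw [hK]
    exact aleph0_le_lam.trans (Order.le_succ _)
  have h1 : #{s : Set K // #s ≤ lam} ≤ #K := by
    refine (Cardinal.mk_bounded_set_le K lam).trans ?_
    rw [max_eq_left hKinf, hK2]
  have h2 : #(X → {s : Set K // #s ≤ lam}) ≤ #K := by
    rw [← Cardinal.power_def]
    calc #{s : Set K // #s ≤ lam} ^ #X ≤ #K ^ #X := Cardinal.power_le_power_right h1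
      _ ≤ #K ^ lam := Cardinal.power_le_power_left hK0 hX
      _ = #K := hK2
  obtain ⟨φ⟩ := h2
  have hne : Nonempty K := by
    rw [← Cardinal.mk_ne_zero_iff]
    exact hK0
  let a : K → X → Set K := fun i => if h : ∃ F, φ F = i then fun ξ => (h.choose ξ).1 else fun _ => ∅
  let idx : (X → Set K) → K := fun F =>
    if h : ∀ ξ, #(F ξ) ≤ lam then φ (fun ξ => ⟨F ξ, h ξ⟩) else Classical.arbitrary K
  refine ⟨a, idx, ?_⟩
  intro F hF
  have hidx : idx F = φ (fun ξ => ⟨F ξ, hF ξ⟩) := dif_pos hF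
  have h3 : ∃ F', φ F' = φ (fun ξ => ⟨F ξ, hF ξ⟩) := ⟨_, rfl⟩
  have ha : a (φ (fun ξ => ⟨F ξ, hF ξ⟩)) = fun ξ => (h3.choose ξ).1 := dif_pos h3
  rw [hidx, ha]
  have h4 := φ.injective h3.choose_spec
  funext ξ
  exact congrArg Subtype.val (congrFun h4 ξ)

section
variable {K : Type} [LinearOrder K]

theorem strict_bound (hK : #K = Order.succ lam) (hI : ∀ a : K, #(Iio a) ≤ lam)
    (s : Set K) (hs : #s ≤ lam) : ∃ b, ∀ x ∈ s, x < b := by
  by_contra h
  push Not at h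
  have h1 : (univ : Set K) ⊆ ⋃ x ∈ s, Iic x := by
    intro b _
    obtain ⟨x, hx, hbx⟩ := h b
    simp only [mem_iUnion]
    exact ⟨x, hx, hbx⟩
  have h2 : #(univ : Set K) ≤ lam := by
    refine small_mono h1 (small_biUnion aleph0_le_lam s hs _ ?_)
    intro x _
    refine small_mono (t := Iio x ∪ {x}) ?_ (small_union aleph0_le_lam (hI x) ?_)
    · intro y hy
      rcases lt_or_eq_of_le (show y ≤ x from hy) with h | h
      · exact Or.inl h
      · exact Or.inr h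
    · exact small_subsingleton aleph0_le_lam subsingleton_singleton
  rw [Cardinal.mk_univ, hK] at h2
  exact absurd h2 (not_le.2 (Order.lt_succ _))

/-- The filtrations `D n α` of the initial segments. -/
structure DSys (K : Type) [LinearOrder K] where
  D : ℕ → K → Set K
  sub : ∀ n α, D n α ⊆ Iio α
  mono : ∀ m n α, m ≤ n → D m α ⊆ D n α
  union : ∀ α β, β < α → ∃ n, β ∈ D n α
  card : ∀ n α, #(D n α) ≤ al n
  capture : ∀ f : ℕ → Set K, (∀ n, #(f n) ≤ al n) →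
    ∃ i : K, ∀ α, i < α → ∃ n0, ∀ n, n0 ≤ n → f n ∩ Iio α ⊆ D n α

/-- The sets caught by level `n`. -/
def Cat (D : DSys K) (n : ℕ) (A : Set K) : Prop :=
  ∀ E : Set K, #E ≤ al n → ∀ γ : K, ∃ α ∈ A, γ < α ∧ E ⊆ D.D n α

/-- Good ladders -/
structure Good (D : DSys K) (n : ℕ) (δ : K) (E : Set K) : Prop where
  sub : E ⊆ Iio δ
  card_le : #E ≤ al (n + 1)
  not_small : ¬ #E ≤ al n
  init : ∀ b ∈ E, E ∩ Iio b ⊆ D.D n b
  cof : ∀ γ < δ, ∃ b ∈ E, γ < b

theorem cat_of_unbounded (hK : #K = Order.succ lam) (hI : ∀ a : K, #(Iio a) ≤ lam)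
    (D : DSys K) (A : Set K) (hA : ∀ γ, ∃ α ∈ A, γ < α) :
    ∃ n0, ∀ n, n0 ≤ n → Cat D n A := by
  classical
  by_contra hcon
  push Not at hcon
  have h1 : ∀ n, ∃ E : Set K, #E ≤ al n ∧ (¬ Cat D n A → ∃ γ, ∀ α ∈ A, γ < α → ¬ E ⊆ D.D n α) := by
    intro n
    by_cases h : Cat D n A
    · exact ⟨∅, by simp, fun h' => absurd h h'⟩
    · have h' := h
      unfold Cat at h'
      push Not at h'
      obtain ⟨E, hE, γ, hγ⟩ := h'
      exact ⟨E, hE, fun _ => ⟨γ, hγ⟩⟩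
  choose E hE1 hE2 using h1
  obtain ⟨i, hi⟩ := D.capture E hE1
  have hγ : ∀ n, ∃ γ, ¬ Cat D n A → ∀ α ∈ A, γ < α → ¬ E n ⊆ D.D n α := by
    intro n
    by_cases h : Cat D n A
    · exact ⟨i, fun h' => absurd h h'⟩
    · obtain ⟨γ, hγ⟩ := hE2 n h
      exact ⟨γ, fun _ => hγ⟩
  choose γ hγ using hγ
  obtain ⟨b, hb⟩ := strict_bound hK hI ({i} ∪ range γ ∪ ⋃ n, E n) (by
    refine small_union aleph0_le_lam (small_union aleph0_le_lam ?_ ?_) ?_
    · exact small_subsingleton aleph0_le_lam subsingleton_singleton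
    · refine Cardinal.mk_range_le.trans ?_
      simpa using aleph0_le_lam
    · exact small_iUnion_nat aleph0_le_lam _ (fun n => (hE1 n).trans (al_le_lam n)))
  obtain ⟨α, hαA, hbα⟩ := hA b
  have hiα : i < α := (hb i (Or.inl (Or.inl rfl))).trans hbα
  obtain ⟨n0, hn0⟩ := hi α hiα
  obtain ⟨n, hn, hncat⟩ := hcon n0
  refine hγ n hncat α hαA ((hb _ (Or.inl (Or.inr ⟨n, rfl⟩))).trans hbα) ?_
  intro x hx
  refine hn0 n hn ⟨hx, ?_⟩
  exact (hb x (Or.inr (mem_iUnion.2 ⟨n, hx⟩))).trans hbα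

end

end Pool.Agent.Helper113
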